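import Pool.Agent.Helper29.LN.Defs

set_option autoImplicit false

namespace Pool.Agent.Helper29.LN

open Finset

section Homs

variable {R : Type} [CommRing R] {d : ℕ} (b : Module.Basis (Fin d) ℤ R) {p : ℕ} [Fact p.Prime]

/-- The values of a homomorphism on the basis determine it. -/
lemma hom_apply (φ : R →+* ZMod p) (x : R) :
    φ x = ∑ i, ((b.repr x i : ℤ) : ZMod p) * φ (b i) := by
  conv_lhs => rw [← b.sum_repr x]
  rw [map_sum]
  refine Finset.sum_congr rfl fun i _ => ?_
  rw [zsmul_eq_mul, map_mul, map_intCast]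

lemma hom_inj : Function.Injective fun φ : R →+* ZMod p => fun i => φ (b i) := by
  intro φ φ' h
  ext x
  rw [hom_apply b, hom_apply b]
  refine Finset.sum_congr rfl fun i _ => ?_
  have h1 : φ (b i) = φ' (b i) := congrFun h i
  rw [h1]

include b in
lemma hom_finite : Finite (R →+* ZMod p) := Finite.of_injective _ (hom_inj b)

lemma hom_indep : LinearIndependent (ZMod p) fun φ : R →+* ZMod p => fun i => φ (b i) := by
  have h1 : LinearIndependent (ZMod p) (fun φ : R →+* ZMod p => ((φ : R →* ZMod p) : R → ZMod p)) := by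
    have h2 := linearIndependent_monoidHom R (ZMod p)
    exact h2.comp (fun φ : R →+* ZMod p => (φ : R →* ZMod p)) fun φ φ' h => by
      ext x
      exact DFunLike.congr_fun h x
  rw [linearIndependent_iff'] at h1 ⊢
  intro S c hc
  apply h1 S c
  funext x
  rw [Finset.sum_apply]
  simp only [Pi.smul_apply, smul_eq_mul, Pi.zero_apply]
  have h3 : ∀ φ : R →+* ZMod p, c φ * ((φ : R →* ZMod p) : R → ZMod p) x =
      ∑ i, ((b.repr x i : ℤ) : ZMod p) * (c φ * φ (b i)) := by
    intro φ
    have h4 : ((φ : R →* ZMod p) : R → ZMod p) x = φ x := rfl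
    rw [h4, hom_apply b φ x, Finset.mul_sum]
    exact Finset.sum_congr rfl fun i _ => by ring
  simp_rw [h3]
  rw [Finset.sum_comm]
  apply Finset.sum_eq_zero
  intro i _
  have h5 := congrFun hc i
  rw [Finset.sum_apply] at h5
  simp only [Pi.smul_apply, smul_eq_mul, Pi.zero_apply] at h5
  rw [← Finset.mul_sum, h5, mul_zero]

include b in
lemma card_hom_le [Fintype (R →+* ZMod p)] : Fintype.card (R →+* ZMod p) ≤ d := by
  have h1 := (hom_indep (p := p) b).fintype_card_le_finrank
  rwa [Module.finrank_fin_fun] at h1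

lemma exists_ne_zero (φ : R →+* ZMod p) : ∃ i, φ (b i) ≠ 0 := by
  by_contra hcon
  push Not at hcon
  have h1 := hom_apply b φ 1
  simp only [hcon, mul_zero, Finset.sum_const_zero, map_one] at h1
  exact one_ne_zero h1

end Homs

section Lin

variable {J : Type} [Fintype J] {d p : ℕ} [Fact p.Prime] (β : Fin d → ZMod p)

/-- The reduction of the coordinates. -/
def red : (J × Fin d → ZMod p) →+ (J → ZMod p) where
  toFun u := fun j => ∑ i, u (j, i) * β i
  map_zero' := by
    funext j
    simp
  map_add' u v := by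
    funext j
    simp [add_mul, Finset.sum_add_distrib]

lemma red_apply (u : J × Fin d → ZMod p) (j : J) : red β u j = ∑ i, u (j, i) * β i := rfl

variable {β}

lemma red_surj {i₀ : Fin d} (h : β i₀ ≠ 0) :
    Function.Surjective (red β : (J × Fin d → ZMod p) →+ (J → ZMod p)) := by
  intro v
  refine ⟨fun x => if x.2 = i₀ then v x.1 / β i₀ else 0, ?_⟩
  funext j
  rw [red_apply]
  simp only [ite_mul, zero_mul, Finset.sum_ite_eq', Finset.mem_univ, if_true]
  field_simp

lemma card_fib [DecidableEq J] {i₀ : Fin d} (h : β i₀ ≠ 0) (v : J → ZMod p) :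
    (((univ : Finset (J × Fin d → ZMod p)).filter fun u => red β u = v).card : ℝ) =
      (p : ℝ) ^ Fintype.card (J × Fin d) / (p : ℝ) ^ Fintype.card J := by
  classical
  have hp : (0 : ℝ) < p := by exact_mod_cast (Fact.out : p.Prime).pos
  have hsur := red_surj (J := J) h
  have h1 : ∀ w : J → ZMod p,
      ((univ : Finset (J × Fin d → ZMod p)).filter fun u => red β u = w).card =
      ((univ : Finset (J × Fin d → ZMod p)).filter fun u => red β u = v).card := fun w =>
    AddMonoidHom.card_fiber_eq_of_mem_range (red β) (hsur w) (hsur v)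
  have h2 : Fintype.card (J × Fin d → ZMod p) = ∑ w : J → ZMod p,
      ((univ : Finset (J × Fin d → ZMod p)).filter fun u => red β u = w).card := by
    rw [← Finset.card_univ]
    exact Finset.card_eq_sum_card_fiberwise fun u _ => Finset.mem_univ _
  rw [Finset.sum_congr rfl fun w _ => h1 w, Finset.sum_const, Finset.card_univ, smul_eq_mul,
    Fintype.card_fun, Fintype.card_fun, ZMod.card] at h2
  rw [eq_div_iff (by positivity)]
  have h3 : ((p ^ Fintype.card (J × Fin d) : ℕ) : ℝ) = ((p ^ Fintype.card J *
      ((univ : Finset (J × Fin d → ZMod p)).filter fun u => red β u = v).card : ℕ) : ℝ) := by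
    exact_mod_cast h2
  push_cast at h3
  rw [h3]
  ring

lemma sum_red [DecidableEq J] {i₀ : Fin d} (h : β i₀ ≠ 0) (G : (J → ZMod p) → ℝ) :
    ∑ u : J × Fin d → ZMod p, G (red β u) =
      (p : ℝ) ^ Fintype.card (J × Fin d) / (p : ℝ) ^ Fintype.card J * ∑ v, G v := by
  classical
  rw [Finset.mul_sum, ← Finset.sum_fiberwise (s := univ) (g := fun u => red β u)]
  refine Finset.sum_congr rfl fun v _ => ?_
  rw [← card_fib h v, Finset.sum_congr rfl (g := fun _ => G v)
    (fun u hu => by rw [(Finset.mem_filter.1 hu).2]), Finset.sum_const, nsmul_eq_mul]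

end Lin

end Pool.Agent.Helper29.LN
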