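import Pool.Agent.Helper29.LN.Gens

set_option autoImplicit false

namespace Pool.Agent.Helper29.LN

open Finset MvPolynomial

section Cert

variable {R : Type} [CommRing R] [IsDomain R] {r c k s : ℕ}
    (h : Fin c → MvPolynomial (Fin (r + 4)) R) (g : Fin k → MvPolynomial (Fin (r + 4)) R)

/-- The Nullstellensatz for the equations of the singular points of a smooth section. -/
lemma exists_pow_le {ψ : R →+* ℂ} (hψ : Function.Injective ψ) {a₀ : Fin k × Mono (r + 4) s → R}
    (hS : SmoothSection ψ h (form g a₀)) :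
    ∃ D : ℕ, idealOfVars (Fin (r + 4)) (FractionRing R) ^ D ≤
      (Ideal.span (Set.range (GG (RingHom.id R) h g a₀))).map
        (map (algebraMap R (FractionRing R))) := by
  let _ : Algebra (FractionRing R) ℂ := (IsFractionRing.lift (K := FractionRing R) hψ).toAlgebra
  have hcomp : (algebraMap (FractionRing R) ℂ).comp (algebraMap R (FractionRing R)) = ψ :=
    RingHom.ext fun x => IsFractionRing.lift_algebraMap hψ x
  set I := (Ideal.span (Set.range (GG (RingHom.id R) h g a₀))).map (map (σ := Fin (r + 4))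
    (algebraMap R (FractionRing R))) with hI
  have h1 : idealOfVars (Fin (r + 4)) (FractionRing R) ≤ I.radical := by
    rw [← vanishingIdeal_zeroLocus_eq_radical (K := ℂ), idealOfVars, Ideal.span_le]
    rintro _ ⟨i, rfl⟩
    rw [SetLike.mem_coe, mem_vanishingIdeal_iff]
    intro x hx
    rw [mem_zeroLocus_iff] at hx
    have h2 : x = 0 := by
      apply eq_zero_of_GG h g ψ hS
      intro γ
      have h3 := hx (map (algebraMap R (FractionRing R)) (GG (RingHom.id R) h g a₀ γ))
        (Ideal.mem_map_of_mem _ (Ideal.subset_span ⟨γ, rfl⟩))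
      rw [← h3, aeval_def, eval₂_map, hcomp]
    rw [h2, aeval_X]
    rfl
  exact Ideal.exists_pow_le_of_le_radical_of_fg h1 (idealOfVars_fg _ _)

/-- Denominators can be cleared. -/
lemma exists_den {n : ℕ} (I : Ideal (MvPolynomial (Fin n) R)) (P : MvPolynomial (Fin n) R)
    (hP : map (algebraMap R (FractionRing R)) P ∈ I.map (map (algebraMap R (FractionRing R)))) :
    ∃ N : R, N ≠ 0 ∧ C N * P ∈ I := by
  let _ : Algebra (MvPolynomial (Fin n) R) (MvPolynomial (Fin n) (FractionRing R)) :=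
    algebraMvPolynomial
  have hloc : IsLocalization ((nonZeroDivisors R).map (C (σ := Fin n)))
      (MvPolynomial (Fin n) (FractionRing R)) :=
    isLocalization (nonZeroDivisors R) (FractionRing R)
  have h1 : (algebraMap (MvPolynomial (Fin n) R) (MvPolynomial (Fin n) (FractionRing R))) =
      map (algebraMap R (FractionRing R)) := rfl
  rw [← h1] at hP
  rw [IsLocalization.mem_map_algebraMap_iff ((nonZeroDivisors R).map (C (σ := Fin n)))] at hP
  obtain ⟨⟨⟨j, hj⟩, ⟨_, N, hN, rfl⟩⟩, hx⟩ := hP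
  refine ⟨N, nonZeroDivisors.ne_zero hN, ?_⟩
  have h2 : C N * P = j := by
    have hinj : Function.Injective (map (σ := Fin n) (algebraMap R (FractionRing R))) :=
      map_injective _ (IsFractionRing.injective R (FractionRing R))
    apply hinj
    rw [map_mul, mul_comm]
    rw [h1] at hx
    exact hx
  rw [h2]
  exact hj

/-- A nonzero element of an integral extension of `ℤ` divides a nonzero integer. -/
lemma exists_int [Algebra.IsIntegral ℤ R] {N : R} (hN : N ≠ 0) :
    ∃ m : ℤ, m ≠ 0 ∧ N ∣ (m : R) := by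
  have h1 : (Ideal.span {N}).comap (algebraMap ℤ R) ≠ ⊥ :=
    Ideal.comap_ne_bot_of_integral_mem hN (Ideal.mem_span_singleton_self N)
      (Algebra.IsIntegral.isIntegral N)
  obtain ⟨m, hm, hm0⟩ := Submodule.exists_mem_ne_zero_of_ne_bot h1
  refine ⟨m, hm0, ?_⟩
  rw [Ideal.mem_comap, Ideal.mem_span_singleton] at hm
  simpa using hm

/-- The certificate of smoothness in characteristic zero. -/
lemma exists_cert [Algebra.IsIntegral ℤ R] {ψ : R →+* ℂ} (hψ : Function.Injective ψ)
    {a₀ : Fin k × Mono (r + 4) s → R} (hS : SmoothSection ψ h (form g a₀)) :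
    ∃ (D : ℕ) (N : ℤ), N ≠ 0 ∧ ∃ q : Mono (r + 4) D → GIdx r c → MvPolynomial (Fin (r + 4)) R,
      ∀ m : Mono (r + 4) D, ∑ γ, q m γ * GG (RingHom.id R) h g a₀ γ =
        monomial (m : Fin (r + 4) →₀ ℕ) (N : R) := by
  classical
  obtain ⟨D, hD⟩ := exists_pow_le h g hψ hS
  refine ⟨D, ?_⟩
  have h1 : ∀ m : Mono (r + 4) D, ∃ N : ℤ, N ≠ 0 ∧
      C (N : R) * monomial (m : Fin (r + 4) →₀ ℕ) (1 : R) ∈
        Ideal.span (Set.range (GG (RingHom.id R) h g a₀)) := by
    intro m
    have h2 : ∃ N : R, N ≠ 0 ∧ C N * monomial (m : Fin (r + 4) →₀ ℕ) (1 : R) ∈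
        Ideal.span (Set.range (GG (RingHom.id R) h g a₀)) := by
      apply exists_den
      apply hD
      rw [map_monomial, map_one, monomial_mem_pow_idealOfVars_iff _ _ one_ne_zero]
      have h := (Finset.mem_finsuppAntidiag.1 m.2).1
      rw [Finsupp.degree_eq_sum]
      exact h.ge
    obtain ⟨N, hN, h3⟩ := h2
    obtain ⟨l, hl, N', hN'⟩ := exists_int hN
    refine ⟨l, hl, ?_⟩
    rw [hN', map_mul, mul_comm (C N), mul_assoc]
    exact Ideal.mul_mem_left _ _ h3
  choose N hN hN2 using h1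
  refine ⟨∏ m, N m, Finset.prod_ne_zero_iff.2 fun m _ => hN m, ?_⟩
  have h2 : ∀ m : Mono (r + 4) D, ∃ q : GIdx r c → MvPolynomial (Fin (r + 4)) R,
      ∑ γ, q γ * GG (RingHom.id R) h g a₀ γ =
        monomial (m : Fin (r + 4) →₀ ℕ) ((∏ m, N m : ℤ) : R) := by
    intro m
    rw [← Ideal.mem_span_range_iff_exists_fun]
    have h3 : monomial (m : Fin (r + 4) →₀ ℕ) ((∏ m, N m : ℤ) : R) =
        C ((∏ m' ∈ univ.erase m, N m' : ℤ) : R) *
          (C (N m : R) * monomial (m : Fin (r + 4) →₀ ℕ) (1 : R)) := by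
      rw [← mul_assoc, ← map_mul, C_mul_monomial, mul_one, ← Int.cast_mul,
        Finset.prod_erase_mul _ _ (Finset.mem_univ m)]
    rw [h3]
    exact Ideal.mul_mem_left _ _ (hN2 m)
  choose q hq using h2
  exact ⟨q, hq⟩

end Cert

end Pool.Agent.Helper29.LN
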