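import Mathlib

set_option autoImplicit false

namespace Pool.Agent.Helper29.LN

open MvPolynomial

/-- The exponent vectors of the monomials of degree `s` in `n` variables. -/
abbrev Mono (n s : ℕ) : Finset (Fin n →₀ ℕ) := Finset.finsuppAntidiag Finset.univ s

variable {R : Type} [CommRing R]

/-- The member of the linear system generated by the products of the forms `g i` with the
monomials of degree `s`, with coefficient vector `a`. -/
noncomputable def form {n k s : ℕ} (g : Fin k → MvPolynomial (Fin n) R)
    (a : Fin k × Mono n s → R) : MvPolynomial (Fin n) R :=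
  ∑ j, monomial (j.2 : Fin n →₀ ℕ) (a j) * g j.1

/-- The vector with entries in `R` with given coordinates in the basis `b`. -/
def coord {d : ℕ} {J : Type} (b : Fin d → R) (a : J × Fin d → ℤ) : J → R :=
  fun j => ∑ i, (a (j, i) : R) * b i

/-- The coordinate vectors with entries in `[-B, B]`. -/
noncomputable def box (n k s d B : ℕ) : Finset ((Fin k × Mono n s) × Fin d → ℤ) :=
  Fintype.piFinset fun _ => Finset.Icc (-(B : ℤ)) B

/-- The number of points over the field with `p` elements of the projective scheme defined by the
reductions of a set of forms: the number of nonzero solutions divided by `p - 1`. -/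
noncomputable def points {n p : ℕ} (φ : R →+* ZMod p) (S : Set (MvPolynomial (Fin n) R)) : ℝ :=
  (Nat.card {x : Fin n → ZMod p // x ≠ 0 ∧ ∀ F ∈ S, eval₂ φ x F = 0} : ℝ) / ((p : ℝ) - 1)

/-- The gradient of the image of `F` at `x`. -/
noncomputable def grad {n : ℕ} {K : Type} [Field K] (ψ : R →+* K) (F : MvPolynomial (Fin n) R)
    (x : Fin n → K) : Fin n → K :=
  fun i => eval₂ ψ x (pderiv i F)

/-- Over the field `K` (by the homomorphism `ψ`) the section `F = 0` of the scheme `W` of
codimension `r` defined by the forms `h i` is smooth: at each point of the section the gradients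
of `F` and of `r` of the forms `h i` are independent. -/
def SmoothSection {r c : ℕ} {K : Type} [Field K] (ψ : R →+* K)
    (h : Fin c → MvPolynomial (Fin (r + 4)) R) (F : MvPolynomial (Fin (r + 4)) R) : Prop :=
  ∀ x : Fin (r + 4) → K, x ≠ 0 → (∀ i, eval₂ ψ x (h i) = 0) → eval₂ ψ x F = 0 →
    ∃ ρ : Fin r → Fin c,
      LinearIndependent K (Fin.cons (grad ψ F x) fun t => grad ψ (h (ρ t)) x :
        Fin (r + 1) → Fin (r + 4) → K)

/-- The section has good reduction at the prime `ker φ` of degree one: it is smooth over all
extensions of its residue field. -/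
def Good {r c p : ℕ} (φ : R →+* ZMod p)
    (h : Fin c → MvPolynomial (Fin (r + 4)) R) (F : MvPolynomial (Fin (r + 4)) R) : Prop :=
  ∀ (K : Type) [Field K] (ι : ZMod p →+* K), SmoothSection (ι.comp φ) h F

/-- The trace of Frobenius on the second cohomology group of the section, by the trace formula
(if the first cohomology group is zero): the number of points minus `p ^ 2 + 1`. -/
noncomputable def trace {r c p : ℕ} (φ : R →+* ZMod p)
    (h : Fin c → MvPolynomial (Fin (r + 4)) R) (F : MvPolynomial (Fin (r + 4)) R) : ℝ :=
  points φ (insert F (Set.range h)) - (p : ℝ) ^ 2 - 1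

/-- The expected value of the trace divided by `p`: `(#W - p ^ 3 - p) / p ^ 2`, which is the trace
on the second cohomology group of `W` divided by `p` up to `O(1 / √p)`, plus `#Z / p`, where `Z`
is the base locus. -/
noncomputable def expect {r c k p : ℕ} (φ : R →+* ZMod p)
    (h : Fin c → MvPolynomial (Fin (r + 4)) R) (g : Fin k → MvPolynomial (Fin (r + 4)) R) : ℝ :=
  (points φ (Set.range h) - (p : ℝ) ^ 3 - p) / (p : ℝ) ^ 2 +
    points φ (Set.range h ∪ Set.range g) / p

open Classical in
/-- The average of the Tauberian Tate conjecture over the primes of degree one and of good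
reduction up to `T`, with weights `w p φ`. The primes of degree one over `p` are the kernels of the
homomorphisms `φ` to the field with `p` elements. -/
noncomputable def average {r c : ℕ} (w : ∀ p : ℕ, (R →+* ZMod p) → ℝ) (T : ℕ)
    (h : Fin c → MvPolynomial (Fin (r + 4)) R) (F : MvPolynomial (Fin (r + 4)) R) : ℝ :=
  (∑ p ∈ (Finset.Icc 1 T).filter Nat.Prime, ∑ᶠ φ : R →+* ZMod p,
    if Good φ h F then w p φ * (trace φ h F * Real.log p / p) else 0) / T

/-- The average of the expected values over all primes of degree one up to `T`. -/
noncomputable def expectAverage {r c k : ℕ} (w : ∀ p : ℕ, (R →+* ZMod p) → ℝ) (T : ℕ)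
    (h : Fin c → MvPolynomial (Fin (r + 4)) R)
    (g : Fin k → MvPolynomial (Fin (r + 4)) R) : ℝ :=
  (∑ p ∈ (Finset.Icc 1 T).filter Nat.Prime, ∑ᶠ φ : R →+* ZMod p,
    w p φ * (expect φ h g * Real.log p)) / T

end Pool.Agent.Helper29.LN
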