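import Pool.Agent.Helper29.LN.Hp
import Pool.Agent.Helper29.LN.Coord
import Pool.Agent.Helper29.TT.Gen

set_option autoImplicit false

namespace Pool.Agent.Helper29.LN

open Finset MvPolynomial
open Pool.Agent.Helper29.TT (Fam PRI boxJ gen_count)

section Moments

variable {R : Type} [CommRing R] {r c k s : ℕ} (h : Fin c → MvPolynomial (Fin (r + 4)) R)
    (g : Fin k → MvPolynomial (Fin (r + 4)) R) {p : ℕ} [Fact p.Prime] (φ : R →+* ZMod p) {C₀ : ℝ}

lemma points_nonneg {n : ℕ} (S : Set (MvPolynomial (Fin n) R)) : 0 ≤ points φ S := by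
  have hp2 : (2 : ℝ) ≤ p := by exact_mod_cast (Fact.out : p.Prime).two_le
  unfold points
  exact div_nonneg (Nat.cast_nonneg _) (by linarith)

lemma sum_gg (hs : 1 ≤ s) : ∑ u : Fin k × Mono (r + 4) s → ZMod p, gg h g φ u =
    -((p : ℝ) ^ Fintype.card (Fin k × Mono (r + 4) s) *
      (points φ (Set.range h ∪ Set.range g) / (p : ℝ) ^ 2)) := by
  unfold gg
  rw [Finset.sum_sub_distrib, ← Finset.sum_div, sum_DD hs (XU_prop h g φ), Finset.sum_const,
    Finset.card_univ, Fintype.card_fun, ZMod.card, nsmul_eq_mul]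
  push_cast
  ring

lemma sum_gg_sq (hs : 1 ≤ s) (hC : 0 ≤ C₀)
    (hW : |points φ (Set.range h) - (p : ℝ) ^ 3| ≤ C₀ * (p : ℝ) ^ 2)
    (hZ : points φ (Set.range h ∪ Set.range g) ≤ C₀ * p) :
    ∑ u : Fin k × Mono (r + 4) s → ZMod p, gg h g φ u ^ 2 ≤
    (8 * (1 + C₀) + 2 * C₀ ^ 2) * (p : ℝ) ^ Fintype.card (Fin k × Mono (r + 4) s) := by
  have hp2 : (2 : ℝ) ≤ p := by exact_mod_cast (Fact.out : p.Prime).two_le
  have hp : (0 : ℝ) < p := by linarith
  have hp1 : (0 : ℝ) < p - 1 := by linarith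
  have hz0 := points_nonneg φ (Set.range h ∪ Set.range g)
  obtain ⟨z, hz⟩ : ∃ z, z = points φ (Set.range h ∪ Set.range g) := ⟨_, rfl⟩
  have h1 : ∀ u : Fin k × Mono (r + 4) s → ZMod p, gg h g φ u ^ 2 ≤
      DD (XU h g φ) (gv g φ) u ^ 2 * (2 / (p * (p - 1)) ^ 2) + 2 * (z / (p : ℝ) ^ 2) ^ 2 := by
    intro u
    unfold gg
    rw [← hz]
    have h2 : ∀ a b : ℝ, (a - b) ^ 2 ≤ 2 * a ^ 2 + 2 * b ^ 2 := by
      intro a b; nlinarith [sq_nonneg (a + b)]
    refine (h2 _ _).trans (le_of_eq ?_)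
    rw [div_pow]
    ring
  refine (Finset.sum_le_sum fun u _ => h1 u).trans ?_
  rw [Finset.sum_add_distrib, ← Finset.sum_mul, Finset.sum_const, Finset.card_univ,
    Fintype.card_fun, ZMod.card, nsmul_eq_mul]
  push_cast
  have hD := sum_DD_sq (p := p) hs (XU_prop h g φ)
  obtain ⟨P, hP⟩ : ∃ P, P = (p : ℝ) ^ Fintype.card (Fin k × Mono (r + 4) s) := ⟨_, rfl⟩
  rw [← hP] at hD ⊢
  have hP0 : 0 < P := by rw [hP]; positivity
  have hU : ((XU h g φ).card : ℝ) ≤ (p - 1) * ((1 + C₀) * (p : ℝ) ^ 3) := by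
    have e1 : ((XU h g φ).card : ℝ) ≤ (XW h φ).card := by
      rw [card_XW h g φ]
      have : (0 : ℝ) ≤ ((XZ h g φ).card : ℝ) := Nat.cast_nonneg _
      linarith
    have e2 : ((XW h φ).card : ℝ) = (p - 1) * points φ (Set.range h) := by
      rw [points_W]; field_simp
    have e3 : points φ (Set.range h) ≤ (1 + C₀) * (p : ℝ) ^ 3 := by
      have e4 := (abs_le.1 hW).2
      have e5 : C₀ * (p : ℝ) ^ 2 ≤ C₀ * (p : ℝ) ^ 3 := by
        apply mul_le_mul_of_nonneg_left _ hC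
        exact pow_le_pow_right₀ (by linarith) (by norm_num)
      linarith
    rw [e2] at e1
    exact e1.trans (mul_le_mul_of_nonneg_left e3 hp1.le)
  have hD2 : (∑ u : Fin k × Mono (r + 4) s → ZMod p, DD (XU h g φ) (gv g φ) u ^ 2) *
      (2 / (p * (p - 1)) ^ 2) ≤ 8 * (1 + C₀) * P := by
    calc _ ≤ (2 * (((p : ℝ) - 1) * ((1 + C₀) * (p : ℝ) ^ 3)) * P) *
          (2 / ((p : ℝ) * (p - 1)) ^ 2) := by
          apply mul_le_mul_of_nonneg_right _ (by positivity)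
          refine hD.trans ?_
          apply mul_le_mul_of_nonneg_right _ hP0.le
          linarith
      _ = 4 * ((p : ℝ) / (p - 1)) * (1 + C₀) * P := by field_simp; ring
      _ ≤ 4 * 2 * (1 + C₀) * P := by
          have h3 : (p : ℝ) / (p - 1) ≤ 2 := by rw [div_le_iff₀ hp1]; linarith
          have h4 : 0 ≤ (1 + C₀) * P := by positivity
          nlinarith
      _ = _ := by ring
  have hz2 : (z / (p : ℝ) ^ 2) ^ 2 ≤ C₀ ^ 2 := by
    apply pow_le_pow_left₀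
    · rw [hz]; positivity
    · rw [div_le_iff₀ (by positivity)]
      rw [← hz] at hZ
      have : C₀ * (p : ℝ) ≤ C₀ * (p : ℝ) ^ 2 := by
        apply mul_le_mul_of_nonneg_left _ hC
        nlinarith
      linarith
  have h5 : P * (2 * (z / (p : ℝ) ^ 2) ^ 2) ≤ 2 * C₀ ^ 2 * P := by nlinarith
  linarith

lemma expect_abs (hC : 0 ≤ C₀)
    (hW : |points φ (Set.range h) - (p : ℝ) ^ 3| ≤ C₀ * (p : ℝ) ^ 2)
    (hZ : points φ (Set.range h ∪ Set.range g) ≤ C₀ * p) :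
    |expect φ h g| ≤ 2 * C₀ + 1 := by
  have hp2 : (2 : ℝ) ≤ p := by exact_mod_cast (Fact.out : p.Prime).two_le
  have hp : (0 : ℝ) < p := by linarith
  have hz0 := points_nonneg φ (Set.range h ∪ Set.range g)
  unfold expect
  obtain ⟨w, hw⟩ : ∃ w, w = points φ (Set.range h) := ⟨_, rfl⟩
  obtain ⟨z, hz⟩ : ∃ z, z = points φ (Set.range h ∪ Set.range g) := ⟨_, rfl⟩
  rw [← hw] at hW ⊢
  rw [← hz] at hZ hz0 ⊢
  have h1 : |z / p| ≤ C₀ := by
    rw [abs_of_nonneg (by positivity), div_le_iff₀ hp]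
    exact hZ
  have h2 : |(w - (p : ℝ) ^ 3 - p) / (p : ℝ) ^ 2| ≤ C₀ + 1 := by
    rw [abs_div, abs_of_pos (by positivity : 0 < (p : ℝ) ^ 2), div_le_iff₀ (by positivity)]
    have h3 : |w - (p : ℝ) ^ 3 - p| ≤ |w - (p : ℝ) ^ 3| + |(p : ℝ)| := abs_sub _ _
    rw [abs_of_pos hp] at h3
    nlinarith
  have h3 := abs_add_le ((w - (p : ℝ) ^ 3 - p) / (p : ℝ) ^ 2) (z / p)
  linarith

open Classical in
/-- The term of the prime `p`. -/
noncomputable def ff (u : Fin k × Mono (r + 4) s → ZMod p) : ℝ :=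
  if Good φ h (form g (lift R u)) then gg h g φ u else -expect φ h g

lemma sum_ff_sq (hs : 1 ≤ s) (hC : 0 ≤ C₀)
    (hW : |points φ (Set.range h) - (p : ℝ) ^ 3| ≤ C₀ * (p : ℝ) ^ 2)
    (hZ : points φ (Set.range h ∪ Set.range g) ≤ C₀ * p) :
    ∑ u : Fin k × Mono (r + 4) s → ZMod p, ff h g φ u ^ 2 ≤
    (8 * (1 + C₀) + 2 * C₀ ^ 2 + (2 * C₀ + 1) ^ 2) *
      (p : ℝ) ^ Fintype.card (Fin k × Mono (r + 4) s) := by
  classical
  have hE : expect φ h g ^ 2 ≤ (2 * C₀ + 1) ^ 2 := by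
    rw [← sq_abs (expect φ h g)]
    exact pow_le_pow_left₀ (abs_nonneg _) (expect_abs h g φ hC hW hZ) 2
  have h1 : ∀ u : Fin k × Mono (r + 4) s → ZMod p,
      ff h g φ u ^ 2 ≤ gg h g φ u ^ 2 + (2 * C₀ + 1) ^ 2 := by
    intro u
    unfold ff
    split_ifs
    · nlinarith [sq_nonneg (2 * C₀ + 1)]
    · rw [neg_sq]; nlinarith [sq_nonneg (gg h g φ u)]
  refine (Finset.sum_le_sum fun u _ => h1 u).trans ?_
  rw [Finset.sum_add_distrib, Finset.sum_const, Finset.card_univ, Fintype.card_fun, ZMod.card,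
    nsmul_eq_mul]
  have h2 := sum_gg_sq h g φ hs hC hW hZ
  push_cast
  linarith

lemma abs_sum_ff (hs : 1 ≤ s) (hC : 0 ≤ C₀) {M : ℝ} (hM : 0 ≤ M)
    (hW : |points φ (Set.range h) - (p : ℝ) ^ 3| ≤ C₀ * (p : ℝ) ^ 2)
    (hZ : points φ (Set.range h ∪ Set.range g) ≤ C₀ * p)
    (hbad : ∀ (Bd : Finset (Fin k × Mono (r + 4) s → ZMod p)),
      (∀ u ∈ Bd, ¬ Good φ h (form g (lift R u))) →
      (Bd.card : ℝ) ≤ M * ((p : ℝ) ^ Fintype.card (Fin k × Mono (r + 4) s) / p)) :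
    |∑ u : Fin k × Mono (r + 4) s → ZMod p, ff h g φ u| ≤
    (C₀ + (2 * C₀ + 2) * M + (8 * (1 + C₀) + 2 * C₀ ^ 2)) *
      ((p : ℝ) ^ Fintype.card (Fin k × Mono (r + 4) s) / Real.sqrt p) := by
  classical
  have hp2 : (2 : ℝ) ≤ p := by exact_mod_cast (Fact.out : p.Prime).two_le
  have hp : (0 : ℝ) < p := by linarith
  obtain ⟨σ, hs'⟩ : ∃ σ, σ = Real.sqrt p := ⟨_, rfl⟩
  have hs0 : 0 < σ := by rw [hs']; exact Real.sqrt_pos.2 hp
  have hss : σ * σ = p := by rw [hs']; exact Real.mul_self_sqrt hp.le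
  have hs1 : 1 ≤ σ := by
    rw [hs', Real.one_le_sqrt]; linarith
  have hE := expect_abs h g φ hC hW hZ
  have hsum := sum_gg h g φ (s := s) hs
  have hsq := sum_gg_sq h g φ (s := s) hs hC hW hZ
  obtain ⟨A1, hA1⟩ : ∃ A1, A1 = 8 * (1 + C₀) + 2 * C₀ ^ 2 := ⟨_, rfl⟩
  have hA10 : 0 ≤ A1 := by rw [hA1]; positivity
  rw [← hA1] at hsq ⊢
  set Bd := (univ : Finset (Fin k × Mono (r + 4) s → ZMod p)).filter
    fun u => ¬ Good φ h (form g (lift R u)) with hBd
  have hcard := hbad Bd fun u hu => (Finset.mem_filter.1 hu).2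
  have hz0 := points_nonneg φ (Set.range h ∪ Set.range g)
  obtain ⟨z, hz⟩ : ∃ z, z = points φ (Set.range h ∪ Set.range g) := ⟨_, rfl⟩
  rw [← hz] at hZ hz0 hsum
  obtain ⟨P, hP⟩ : ∃ P, P = (p : ℝ) ^ Fintype.card (Fin k × Mono (r + 4) s) := ⟨_, rfl⟩
  rw [← hP] at hcard hsum hsq ⊢
  have hP0 : 0 < P := by rw [hP]; positivity
  rw [← hs']
  have h1 : ∀ u : Fin k × Mono (r + 4) s → ZMod p, ff h g φ u = gg h g φ u -
      (if ¬ Good φ h (form g (lift R u)) then expect φ h g + gg h g φ u else 0) := by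
    intro u
    unfold ff
    by_cases hg : Good φ h (form g (lift R u))
    · rw [if_pos hg, if_neg (not_not.2 hg)]; ring
    · rw [if_neg hg, if_pos hg]; ring
  have h2 : ∑ u : Fin k × Mono (r + 4) s → ZMod p, ff h g φ u =
      -(P * (z / (p : ℝ) ^ 2)) - ∑ u ∈ Bd, (expect φ h g + gg h g φ u) := by
    simp_rw [h1]
    rw [Finset.sum_sub_distrib, hsum, ← Finset.sum_filter]
  have h3 : |∑ u ∈ Bd, (expect φ h g + gg h g φ u)| ≤
      ∑ u ∈ Bd, ((2 * C₀ + 1) + σ / 2 + gg h g φ u ^ 2 / (2 * σ)) := by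
    refine (Finset.abs_sum_le_sum_abs _ _).trans (Finset.sum_le_sum fun u _ => ?_)
    have h4 : |gg h g φ u| ≤ σ / 2 + gg h g φ u ^ 2 / (2 * σ) := by
      have h5 : σ / 2 + gg h g φ u ^ 2 / (2 * σ) = (σ ^ 2 + gg h g φ u ^ 2) / (2 * σ) := by
        field_simp
      rw [h5, le_div_iff₀ (by positivity)]
      have := sq_nonneg (σ - |gg h g φ u|)
      rw [← sq_abs (gg h g φ u)]
      nlinarith
    have h5 := abs_add_le (expect φ h g) (gg h g φ u)
    linarith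
  have h4 : ∑ u ∈ Bd, ((2 * C₀ + 1) + σ / 2 + gg h g φ u ^ 2 / (2 * σ)) ≤
      M * (P / p) * ((2 * C₀ + 1) + σ / 2) + A1 * P / (2 * σ) := by
    rw [Finset.sum_add_distrib, Finset.sum_const, nsmul_eq_mul]
    have h6 : ∑ u ∈ Bd, gg h g φ u ^ 2 / (2 * σ) ≤ A1 * P / (2 * σ) := by
      rw [← Finset.sum_div]
      apply div_le_div_of_nonneg_right _ (by positivity)
      exact (Finset.sum_le_sum_of_subset_of_nonneg (Finset.subset_univ _)
        fun _ _ _ => sq_nonneg _).trans hsq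
    have h7 : (Bd.card : ℝ) * ((2 * C₀ + 1) + σ / 2) ≤ M * (P / p) * ((2 * C₀ + 1) + σ / 2) :=
      mul_le_mul_of_nonneg_right hcard (by positivity)
    linarith
  have h5 : |∑ u : Fin k × Mono (r + 4) s → ZMod p, ff h g φ u| ≤ P * (z / (p : ℝ) ^ 2) +
      (M * (P / p) * ((2 * C₀ + 1) + σ / 2) + A1 * P / (2 * σ)) := by
    rw [h2]
    refine (abs_sub _ _).trans ?_
    rw [abs_neg, abs_of_nonneg (by positivity : 0 ≤ P * (z / (p : ℝ) ^ 2))]
    linarith
  refine h5.trans ?_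
  have hσp : σ ≤ p := by rw [← hss]; nlinarith
  have e1 : P * (z / (p : ℝ) ^ 2) ≤ C₀ * (P / σ) := by
    have e11 : z / (p : ℝ) ^ 2 ≤ C₀ / σ := by
      rw [div_le_div_iff₀ (by positivity) hs0]
      calc z * σ ≤ (C₀ * p) * p := mul_le_mul hZ hσp hs0.le (by positivity)
        _ = C₀ * (p : ℝ) ^ 2 := by ring
    calc P * (z / (p : ℝ) ^ 2) ≤ P * (C₀ / σ) := mul_le_mul_of_nonneg_left e11 hP0.le
      _ = _ := by ring
  have e2 : P / p * ((2 * C₀ + 1) + σ / 2) ≤ (2 * C₀ + 2) * (P / σ) := by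
    rw [div_mul_eq_mul_div, ← mul_div_assoc, div_le_div_iff₀ hp hs0]
    have e21 : ((2 * C₀ + 1) + σ / 2) * σ ≤ (2 * C₀ + 2) * p := by
      rw [← hss]; nlinarith [mul_nonneg hC (mul_nonneg hs0.le (sub_nonneg.2 hs1)), mul_nonneg hs0.le (sub_nonneg.2 hs1)]
    calc P * ((2 * C₀ + 1) + σ / 2) * σ = P * (((2 * C₀ + 1) + σ / 2) * σ) := by ring
      _ ≤ P * ((2 * C₀ + 2) * p) := mul_le_mul_of_nonneg_left e21 hP0.le
      _ = _ := by ring
  have e3 : A1 * P / (2 * σ) ≤ A1 * (P / σ) := by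
    rw [← mul_div_assoc, div_le_div_iff₀ (by positivity) hs0]
    have : 0 ≤ A1 * P * σ := by positivity
    nlinarith
  have e4 : M * (P / p) * ((2 * C₀ + 1) + σ / 2) ≤ M * ((2 * C₀ + 2) * (P / σ)) := by
    rw [mul_assoc]
    exact mul_le_mul_of_nonneg_left e2 hM
  calc _ ≤ C₀ * (P / σ) + (M * ((2 * C₀ + 2) * (P / σ)) + A1 * (P / σ)) := by linarith
    _ = _ := by ring

end Moments

section Main

variable {R : Type} [CommRing R] {r c k s d : ℕ}

open Classical in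
/-- The term of a prime of degree one. -/
noncomputable def t1 {p : ℕ} (φ : R →+* ZMod p) (h : Fin c → MvPolynomial (Fin (r + 4)) R)
    (g : Fin k → MvPolynomial (Fin (r + 4)) R) (a : Fin k × Mono (r + 4) s → R) : ℝ :=
  if Good φ h (form g a) then trace φ h (form g a) / p - expect φ h g else -expect φ h g

/-- The terms of the sum. -/
noncomputable def tt (w : ∀ p : ℕ, (R →+* ZMod p) → ℝ) (b : Fin d → R)
    (h : Fin c → MvPolynomial (Fin (r + 4)) R)
    (g : Fin k → MvPolynomial (Fin (r + 4)) R) (p : ℕ)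
    (a : (Fin k × Mono (r + 4) s) × Fin d → ℤ) : ℝ :=
  ∑ᶠ φ : R →+* ZMod p, w p φ * t1 φ h g (coord b a)

lemma average_sub (b : Module.Basis (Fin d) ℤ R) (w : ∀ p : ℕ, (R →+* ZMod p) → ℝ) (T : ℕ)
    (h : Fin c → MvPolynomial (Fin (r + 4)) R)
    (g : Fin k → MvPolynomial (Fin (r + 4)) R) (a : (Fin k × Mono (r + 4) s) × Fin d → ℤ) :
    average w T h (form g (coord b a)) - expectAverage w T h g =
      (∑ p ∈ PRI T, Real.log p * tt w b h g p a) / T := by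
  classical
  unfold average expectAverage
  rw [← sub_div, ← Finset.sum_sub_distrib]
  congr 1
  unfold PRI
  refine Finset.sum_congr rfl fun p hp => ?_
  have hpp : Fact p.Prime := ⟨(Finset.mem_filter.1 hp).2⟩
  have hfin : Finite (R →+* ZMod p) := hom_finite b
  have := Fintype.ofFinite (R →+* ZMod p)
  unfold tt
  rw [finsum_eq_sum_of_fintype, finsum_eq_sum_of_fintype, finsum_eq_sum_of_fintype,
    ← Finset.sum_sub_distrib, Finset.mul_sum]
  refine Finset.sum_congr rfl fun φ _ => ?_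
  unfold t1
  by_cases hg : Good φ h (form g (coord b a))
  · rw [if_pos hg, if_pos hg]; ring
  · rw [if_neg hg, if_neg hg]; ring

lemma map_coord {p : ℕ} {J : Type} (φ : R →+* ZMod p) (b : Fin d → R) (a : J × Fin d → ℤ) (j : J) :
    φ (coord b a j) = ∑ i, ((a (j, i) : ℤ) : ZMod p) * φ (b i) := by
  unfold coord
  rw [map_sum]
  exact Finset.sum_congr rfl fun i _ => by rw [map_mul, map_intCast]

lemma t1_eq {p : ℕ} [Fact p.Prime] (φ : R →+* ZMod p)
    (h : Fin c → MvPolynomial (Fin (r + 4)) R)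
    (g : Fin k → MvPolynomial (Fin (r + 4)) R) (b : Fin d → R)
    (a : (Fin k × Mono (r + 4) s) × Fin d → ℤ) :
    t1 φ h g (coord b a) = ff h g φ (red (fun i => φ (b i)) fun j => ((a j : ℤ) : ZMod p)) := by
  classical
  have h1 : red (fun i => φ (b i)) (fun j => ((a j : ℤ) : ZMod p)) =
      fun j => φ (coord b a j) := by
    funext j
    rw [red_apply, map_coord]
  rw [h1]
  unfold t1 ff
  by_cases hgd : Good φ h (form g (coord b a))
  · rw [if_pos hgd, if_pos ((good_lift h g φ _).2 hgd), trace_eq]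
  · rw [if_neg hgd, if_neg (fun h' => hgd ((good_lift h g φ _).1 h'))]

theorem fam [IsDomain R] (b : Module.Basis (Fin d) ℤ R) {h : Fin c → MvPolynomial (Fin (r + 4)) R}
    {g : Fin k → MvPolynomial (Fin (r + 4)) R} {δ : Fin c → ℕ}
    (hh : ∀ i, (h i).IsHomogeneous (δ i)) {e : ℕ} (hg : ∀ i, (g i).IsHomogeneous e)
    (hs : 1 ≤ s) {C₀ : ℝ} (hC : 0 ≤ C₀)
    (hW : ∀ p : ℕ, p.Prime → ∀ φ : R →+* ZMod p,
      |points φ (Set.range h) - (p : ℝ) ^ 3| ≤ C₀ * (p : ℝ) ^ 2)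
    (hZ : ∀ p : ℕ, p.Prime → ∀ φ : R →+* ZMod p,
      points φ (Set.range h ∪ Set.range g) ≤ C₀ * p)
    {ψ : R →+* ℂ} (hψ : Function.Injective ψ)
    {a₀ : Fin k × Mono (r + 4) s → R} (hS : SmoothSection ψ h (form g a₀)) :
    ∃ A C : ℝ, ∀ w : ∀ p : ℕ, (R →+* ZMod p) → ℝ, (∀ p φ, |w p φ| ≤ 1) →
      Fam (tt (s := s) w b h g) A C := by
  classical
  have hint : Algebra.IsIntegral ℤ R := by
    have : Module.Finite ℤ R := Module.Finite.of_basis b
    infer_instance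
  obtain ⟨D, N, hN, q, hq⟩ := exists_cert h g hψ hS
  obtain ⟨M, hM⟩ : ∃ M : ℝ, M = 2 * Fintype.card (Mono (r + 4) D) + N.natAbs := ⟨_, rfl⟩
  have hM0 : 0 ≤ M := by rw [hM]; positivity
  obtain ⟨A, hA⟩ : ∃ A : ℝ, A = 8 * (1 + C₀) + 2 * C₀ ^ 2 + (2 * C₀ + 1) ^ 2 := ⟨_, rfl⟩
  obtain ⟨C, hCC⟩ : ∃ C : ℝ, C = C₀ + (2 * C₀ + 2) * M + (8 * (1 + C₀) + 2 * C₀ ^ 2) := ⟨_, rfl⟩
  have hA0 : 0 ≤ A := by rw [hA]; positivity
  have hC0 : 0 ≤ C := by rw [hCC]; positivity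
  refine ⟨(d : ℝ) ^ 2 * A, d * C, fun w hw => ⟨by positivity, by positivity, ?_⟩⟩
  intro p hp
  have hpp : p.Prime := Fact.out
  have hp0 : (0 : ℝ) < p := by exact_mod_cast hpp.pos
  have hfin : Finite (R →+* ZMod p) := hom_finite b
  have hft := Fintype.ofFinite (R →+* ZMod p)
  have hcard : (Fintype.card (R →+* ZMod p) : ℝ) ≤ d := by exact_mod_cast card_hom_le b
  obtain ⟨Pd, hPd⟩ : ∃ Pd : ℝ, Pd = (p : ℝ) ^ Fintype.card ((Fin k × Mono (r + 4) s) × Fin d) :=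
    ⟨_, rfl⟩
  obtain ⟨P1, hP1⟩ : ∃ P1 : ℝ, P1 = (p : ℝ) ^ Fintype.card (Fin k × Mono (r + 4) s) := ⟨_, rfl⟩
  have hPd0 : 0 < Pd := by rw [hPd]; positivity
  have hP10 : 0 < P1 := by rw [hP1]; positivity
  refine ⟨fun u => ∑ φ : R →+* ZMod p, w p φ * ff h g φ (red (fun i => φ (b i)) u), ?_, ?_, ?_⟩
  · intro a
    unfold tt
    rw [finsum_eq_sum_of_fintype]
    exact Finset.sum_congr rfl fun φ _ => by rw [t1_eq]
  · rw [← hPd]
    have h1 : ∀ u : (Fin k × Mono (r + 4) s) × Fin d → ZMod p,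
        (∑ φ : R →+* ZMod p, w p φ * ff h g φ (red (fun i => φ (b i)) u)) ^ 2 ≤
        d * ∑ φ : R →+* ZMod p, ff h g φ (red (fun i => φ (b i)) u) ^ 2 := by
      intro u
      refine (sq_sum_le_card_mul_sum_sq).trans ?_
      rw [Finset.card_univ]
      apply mul_le_mul hcard _ (Finset.sum_nonneg fun _ _ => sq_nonneg _) (Nat.cast_nonneg _)
      refine Finset.sum_le_sum fun φ _ => ?_
      rw [mul_pow]
      have h2 : w p φ ^ 2 ≤ 1 := by
        rw [← sq_abs]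
        exact pow_le_one₀ (abs_nonneg _) (hw p φ)
      nlinarith [sq_nonneg (ff h g φ (red (fun i => φ (b i)) u))]
    refine (Finset.sum_le_sum fun u _ => h1 u).trans ?_
    rw [← Finset.mul_sum, Finset.sum_comm]
    have h2 : ∀ φ : R →+* ZMod p, ∑ u : (Fin k × Mono (r + 4) s) × Fin d → ZMod p,
        ff h g φ (red (fun i => φ (b i)) u) ^ 2 ≤ A * Pd := by
      intro φ
      obtain ⟨i₀, hi₀⟩ := exists_ne_zero b φ
      rw [sum_red (J := Fin k × Mono (r + 4) s) (β := fun i => φ (b i)) hi₀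
        (fun v => ff h g φ v ^ 2), ← hPd, ← hP1]
      have h3 := sum_ff_sq h g φ (s := s) hs hC (hW p hpp φ) (hZ p hpp φ)
      rw [← hA, ← hP1] at h3
      calc Pd / P1 * _ ≤ Pd / P1 * (A * P1) := mul_le_mul_of_nonneg_left h3 (by positivity)
        _ = A * Pd := by field_simp
    calc (d : ℝ) * _ ≤ d * ∑ _φ : R →+* ZMod p, A * Pd :=
          mul_le_mul_of_nonneg_left (Finset.sum_le_sum fun φ _ => h2 φ) (Nat.cast_nonneg _)
      _ = d * (Fintype.card (R →+* ZMod p) * (A * Pd)) := by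
          rw [Finset.sum_const, Finset.card_univ, nsmul_eq_mul]
      _ ≤ d * (d * (A * Pd)) := by
          apply mul_le_mul_of_nonneg_left _ (Nat.cast_nonneg _)
          exact mul_le_mul_of_nonneg_right hcard (by positivity)
      _ = _ := by ring
  · rw [← hPd, Finset.sum_comm]
    have h2 : ∀ φ : R →+* ZMod p, |∑ u : (Fin k × Mono (r + 4) s) × Fin d → ZMod p,
        w p φ * ff h g φ (red (fun i => φ (b i)) u)| ≤ C * (Pd / Real.sqrt p) := by
      intro φ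
      obtain ⟨i₀, hi₀⟩ := exists_ne_zero b φ
      have h1 := abs_sum_ff h g φ (s := s) hs hC hM0 (hW p hpp φ) (hZ p hpp φ) (by
        intro Bd hBd
        refine le_trans ?_ (hM ▸ card_bad h g (p := p) φ hh hg hN hq)
        have : Bd ⊆ (univ : Finset (Fin k × Mono (r + 4) s → ZMod p)).filter
            fun u => ¬ Good φ h (form g (lift R u)) := by
          intro u hu
          rw [Finset.mem_filter]
          exact ⟨Finset.mem_univ _, hBd u hu⟩
        exact_mod_cast Finset.card_le_card this)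
      rw [← hCC, ← hP1] at h1
      rw [← Finset.mul_sum, sum_red (J := Fin k × Mono (r + 4) s) (β := fun i => φ (b i)) hi₀
        (fun v => ff h g φ v), ← hPd, ← hP1, abs_mul, abs_mul,
        abs_of_nonneg (by positivity : 0 ≤ Pd / P1)]
      calc |w p φ| * (Pd / P1 * |∑ v, ff h g φ v|) ≤ 1 * (Pd / P1 * (C * (P1 / Real.sqrt p))) := by
            apply mul_le_mul (hw p φ) _ (by positivity) zero_le_one
            exact mul_le_mul_of_nonneg_left h1 (by positivity)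
        _ = _ := by
            have : Real.sqrt p ≠ 0 := (Real.sqrt_pos.2 hp0).ne'
            field_simp
    calc _ ≤ ∑ φ : R →+* ZMod p, C * (Pd / Real.sqrt p) :=
          (Finset.abs_sum_le_sum_abs _ _).trans (Finset.sum_le_sum fun φ _ => h2 φ)
      _ = Fintype.card (R →+* ZMod p) * (C * (Pd / Real.sqrt p)) := by
          rw [Finset.sum_const, Finset.card_univ, nsmul_eq_mul]
      _ ≤ d * (C * (Pd / Real.sqrt p)) := mul_le_mul_of_nonneg_right hcard (by positivity)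
      _ = _ := by ring

open Classical in
theorem main [IsDomain R] (b : Module.Basis (Fin d) ℤ R)
    {h : Fin c → MvPolynomial (Fin (r + 4)) R}
    {g : Fin k → MvPolynomial (Fin (r + 4)) R} {δ : Fin c → ℕ}
    (hh : ∀ i, (h i).IsHomogeneous (δ i)) {e : ℕ} (hg : ∀ i, (g i).IsHomogeneous e)
    (hs : 1 ≤ s) {C₀ : ℝ}
    (hW : ∀ p : ℕ, p.Prime → ∀ φ : R →+* ZMod p,
      |points φ (Set.range h) - (p : ℝ) ^ 3| ≤ C₀ * (p : ℝ) ^ 2)
    (hZ : ∀ p : ℕ, p.Prime → ∀ φ : R →+* ZMod p,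
      points φ (Set.range h ∪ Set.range g) ≤ C₀ * p)
    {ψ : R →+* ℂ} (hψ : Function.Injective ψ)
    {a₀ : Fin k × Mono (r + 4) s → R} (hS : SmoothSection ψ h (form g a₀)) :
    ∃ C : ℝ, ∀ w : ∀ p : ℕ, (R →+* ZMod p) → ℝ, (∀ p φ, |w p φ| ≤ 1) → ∀ T₀ B : ℕ, 2 ≤ T₀ →
      (((box (r + 4) k s d B).filter fun a => ∃ T : ℕ, T₀ ≤ T ∧ T ^ 2 ≤ B ∧
        Real.log T ^ 3 / Real.sqrt T <
          |average w T h (form g (coord b a)) - expectAverage w T h g|).card : ℝ) ≤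
        C / Real.log T₀ * (box (r + 4) k s d B).card := by
  obtain ⟨A, C, hf⟩ := fam (s := s) (C₀ := |C₀|) b hh hg hs (abs_nonneg _)
    (fun p hp φ => (hW p hp φ).trans (mul_le_mul_of_nonneg_right (le_abs_self _) (by positivity)))
    (fun p hp φ => (hZ p hp φ).trans (mul_le_mul_of_nonneg_right (le_abs_self _) (by positivity)))
    hψ hS
  refine ⟨Pool.Agent.Helper29.TT.KJ ((Fin k × Mono (r + 4) s) × Fin d) A C,
    fun w hw T₀ B hT₀ => ?_⟩
  simp_rw [average_sub b]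
  exact gen_count (hf w hw) T₀ B hT₀

end Main

end Pool.Agent.Helper29.LN
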