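import Pool.Agent.Helper29.LN.Defs

set_option autoImplicit false

namespace Pool.Agent.Helper29.LN

open Finset MvPolynomial

section Forms

variable {R : Type} [CommRing R] {n k s : ℕ}

/-- The member of the linear system over a ring `S` with a homomorphism `R → S`. -/
noncomputable def formS {S : Type} [CommRing S] (ψ : R →+* S) (g : Fin k → MvPolynomial (Fin n) R)
    (u : Fin k × Mono n s → S) : MvPolynomial (Fin n) S :=
  ∑ j, monomial (j.2 : Fin n →₀ ℕ) (u j) * map ψ (g j.1)

variable {S : Type} [CommRing S] (ψ : R →+* S) (g : Fin k → MvPolynomial (Fin n) R)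

lemma map_form (a : Fin k × Mono n s → R) :
    map ψ (form g a) = formS ψ g fun j => ψ (a j) := by
  unfold form formS
  rw [map_sum]
  refine Finset.sum_congr rfl fun j _ => ?_
  rw [map_mul, map_monomial]

lemma formS_id (a : Fin k × Mono n s → R) : formS (RingHom.id R) g a = form g a := by
  unfold form formS
  exact Finset.sum_congr rfl fun j _ => by rw [map_id]

lemma formS_add (u v : Fin k × Mono n s → S) :
    formS ψ g (u + v) = formS ψ g u + formS ψ g v := by
  unfold formS
  rw [← Finset.sum_add_distrib]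
  exact Finset.sum_congr rfl fun m _ => by rw [Pi.add_apply, map_add, add_mul]

lemma formS_smul (t : S) (u : Fin k × Mono n s → S) :
    formS ψ g (t • u) = t • formS ψ g u := by
  unfold formS
  rw [Finset.smul_sum]
  exact Finset.sum_congr rfl fun m _ => by
    rw [Pi.smul_apply, ← smul_monomial, smul_mul_assoc]

lemma formS_hom {e : ℕ} (hg : ∀ i, (g i).IsHomogeneous e) (u : Fin k × Mono n s → S) :
    (formS ψ g u).IsHomogeneous (s + e) := by
  apply IsHomogeneous.sum
  intro j _
  apply IsHomogeneous.mul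
  · apply isHomogeneous_monomial
    have h := (Finset.mem_finsuppAntidiag.1 j.2.2).1
    rw [Finsupp.degree_eq_sum]
    exact h
  · exact (hg j.1).map _

end Forms

section DetHom

variable {n r : ℕ} {R : Type} [CommRing R]

lemma det_hom (A : Matrix (Fin r) (Fin r) (MvPolynomial (Fin n) R)) (D : Fin r → ℕ)
    (hA : ∀ i j, (A i j).IsHomogeneous (D i)) : A.det.IsHomogeneous (∑ i, D i) := by
  rw [Matrix.det_apply']
  apply IsHomogeneous.sum
  intro τ _
  have h1 : ((((Equiv.Perm.sign τ : ℤˣ) : ℤ) : MvPolynomial (Fin n) R)).IsHomogeneous 0 := by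
    have : ((((Equiv.Perm.sign τ : ℤˣ) : ℤ) : MvPolynomial (Fin n) R)) =
        C ((((Equiv.Perm.sign τ : ℤˣ) : ℤ) : R)) := by simp
    rw [this]
    exact isHomogeneous_C _ _
  have h2 : (∏ i, A (τ i) i).IsHomogeneous (∑ i, D (τ i)) :=
    IsHomogeneous.prod _ _ _ fun i _ => hA _ _
  rw [Equiv.sum_comp τ D] at h2
  have h3 := h1.mul h2
  rw [zero_add] at h3
  exact h3

end DetHom

section Gens

variable {R : Type} [CommRing R] {r c k s : ℕ}

/-- The cofactors of the first row of the Jacobian minors. -/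
noncomputable def cof (h : Fin c → MvPolynomial (Fin (r + 4)) R) (ρ : Fin r → Fin c)
    (σ : Fin (r + 1) → Fin (r + 4)) (b : Fin (r + 1)) : MvPolynomial (Fin (r + 4)) R :=
  (-1) ^ (b : ℕ) * Matrix.det (Matrix.of fun t t' : Fin r => pderiv (σ (b.succAbove t')) (h (ρ t)))

/-- The index set of the equations of a singular point. -/
abbrev GIdx (r c : ℕ) := (Fin c ⊕ Unit) ⊕ ((Fin r → Fin c) × (Fin (r + 1) → Fin (r + 4)))

/-- The equations of the singular points of a section. -/
noncomputable def GG {S : Type} [CommRing S] (ψ : R →+* S)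
    (h : Fin c → MvPolynomial (Fin (r + 4)) R)
    (g : Fin k → MvPolynomial (Fin (r + 4)) R) (u : Fin k × Mono (r + 4) s → S) :
    GIdx r c → MvPolynomial (Fin (r + 4)) S
  | Sum.inl (Sum.inl i) => map ψ (h i)
  | Sum.inl (Sum.inr _) => formS ψ g u
  | Sum.inr (ρ, σ) => ∑ b, pderiv (σ b) (formS ψ g u) * map ψ (cof h ρ σ b)

/-- The linear parts of the equations. -/
noncomputable def LL {S : Type} [CommRing S] (ψ : R →+* S)
    (h : Fin c → MvPolynomial (Fin (r + 4)) R)
    (g : Fin k → MvPolynomial (Fin (r + 4)) R) (u : Fin k × Mono (r + 4) s → S) :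
    GIdx r c → MvPolynomial (Fin (r + 4)) S
  | Sum.inl (Sum.inl _) => 0
  | Sum.inl (Sum.inr _) => formS ψ g u
  | Sum.inr (ρ, σ) => ∑ b, pderiv (σ b) (formS ψ g u) * map ψ (cof h ρ σ b)

variable {S : Type} [CommRing S] (ψ : R →+* S) (h : Fin c → MvPolynomial (Fin (r + 4)) R)
    (g : Fin k → MvPolynomial (Fin (r + 4)) R)

lemma GG_affine (u v : Fin k × Mono (r + 4) s → S) (t : S) (γ : GIdx r c) :
    GG ψ h g (u + t • v) γ = GG ψ h g u γ + t • LL ψ h g v γ := by
  rcases γ with (i | i) | ⟨ρ, σ⟩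
  · simp [GG, LL]
  · simp only [GG, LL]
    rw [formS_add, formS_smul]
  · simp only [GG, LL]
    rw [Finset.smul_sum, ← Finset.sum_add_distrib]
    refine Finset.sum_congr rfl fun b _ => ?_
    rw [formS_add, formS_smul, map_add, Derivation.map_smul, add_mul, smul_mul_assoc]

lemma map_GG (a : Fin k × Mono (r + 4) s → R) (γ : GIdx r c) :
    map ψ (GG (RingHom.id R) h g a γ) = GG ψ h g (fun j => ψ (a j)) γ := by
  rcases γ with (i | i) | ⟨ρ, σ⟩
  · simp only [GG, map_id]
  · simp only [GG]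
    rw [formS_id, map_form]
  · simp only [GG]
    rw [map_sum]
    refine Finset.sum_congr rfl fun b _ => ?_
    rw [map_mul, map_id, formS_id, ← map_form ψ g a, pderiv_map]

lemma cof_hom {δ : Fin c → ℕ} (hh : ∀ i, (h i).IsHomogeneous (δ i)) (ρ : Fin r → Fin c)
    (σ : Fin (r + 1) → Fin (r + 4)) (b : Fin (r + 1)) :
    (cof h ρ σ b).IsHomogeneous (∑ t, (δ (ρ t) - 1)) := by
  unfold cof
  have h1 : (((-1) ^ (b : ℕ) : MvPolynomial (Fin (r + 4)) R)).IsHomogeneous 0 := by
    have : ((-1) ^ (b : ℕ) : MvPolynomial (Fin (r + 4)) R) = C ((-1) ^ (b : ℕ)) := by simp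
    rw [this]
    exact isHomogeneous_C _ _
  have h2 := h1.mul (det_hom (Matrix.of fun t t' : Fin r =>
    pderiv (σ (b.succAbove t')) (h (ρ t))) (fun t => δ (ρ t) - 1)
    fun t t' => (hh (ρ t)).pderiv)
  rw [zero_add] at h2
  exact h2

lemma GG_hom {δ : Fin c → ℕ} (hh : ∀ i, (h i).IsHomogeneous (δ i)) {e : ℕ}
    (hg : ∀ i, (g i).IsHomogeneous e) (u : Fin k × Mono (r + 4) s → S) (γ : GIdx r c) :
    ∃ N, (GG ψ h g u γ).IsHomogeneous N := by
  rcases γ with (i | i) | ⟨ρ, σ⟩
  · exact ⟨δ i, (hh i).map _⟩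
  · exact ⟨s + e, formS_hom ψ g hg u⟩
  · refine ⟨(s + e - 1) + ∑ t, (δ (ρ t) - 1), ?_⟩
    simp only [GG]
    apply IsHomogeneous.sum
    intro b _
    exact ((formS_hom ψ g hg u).pderiv).mul ((cof_hom h hh ρ σ b).map _)

variable {K : Type} [Field K] (κ : R →+* K)

lemma eval_cof (x : Fin (r + 4) → K) (ρ : Fin r → Fin c)
    (σ : Fin (r + 1) → Fin (r + 4)) (b : Fin (r + 1)) :
    eval₂ κ x (cof h ρ σ b) = (-1) ^ (b : ℕ) * Matrix.det (Matrix.of fun t t' : Fin r =>
      grad κ (h (ρ t)) x (σ (b.succAbove t'))) := by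
  unfold cof
  rw [← coe_eval₂Hom, map_mul, map_pow, map_neg, map_one, RingHom.map_det]
  rfl

/-- The square matrix of the gradients in some columns. -/
def gmat {K : Type} (v : Fin (r + 1) → Fin (r + 4) → K) (σ : Fin (r + 1) → Fin (r + 4)) :
    Matrix (Fin (r + 1)) (Fin (r + 1)) K :=
  Matrix.of fun i b => v i (σ b)

lemma eval_GG_minor (x : Fin (r + 4) → K)
    (a : Fin k × Mono (r + 4) s → R) (ρ : Fin r → Fin c) (σ : Fin (r + 1) → Fin (r + 4)) :
    eval₂ κ x (GG (RingHom.id R) h g a (Sum.inr (ρ, σ))) =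
      (gmat (Fin.cons (grad κ (form g a) x) fun t => grad κ (h (ρ t)) x :
        Fin (r + 1) → Fin (r + 4) → K) σ).det := by
  simp only [GG]
  rw [← coe_eval₂Hom, map_sum, Matrix.det_succ_row_zero]
  refine Finset.sum_congr rfl fun b _ => ?_
  rw [map_mul, map_id, formS_id, coe_eval₂Hom, eval_cof]
  have h1 : gmat (Fin.cons (grad κ (form g a) x) fun t => grad κ (h (ρ t)) x :
      Fin (r + 1) → Fin (r + 4) → K) σ 0 b = eval₂ κ x (pderiv (σ b) (form g a)) := rfl
  have h2 : (gmat (Fin.cons (grad κ (form g a) x) fun t => grad κ (h (ρ t)) x :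
      Fin (r + 1) → Fin (r + 4) → K) σ).submatrix Fin.succ b.succAbove =
      Matrix.of fun t t' : Fin r => grad κ (h (ρ t)) x (σ (b.succAbove t')) := by
    ext t t'
    rfl
  rw [h1, h2]
  ring

end Gens

section Indep

variable {r : ℕ} {K : Type} [Field K]

lemma det_gmat_eq_zero {v : Fin (r + 1) → Fin (r + 4) → K} (hv : ¬ LinearIndependent K v)
    (σ : Fin (r + 1) → Fin (r + 4)) : (gmat v σ).det = 0 := by
  by_contra hne
  apply hv
  have h1 : LinearIndependent K (fun i => (gmat v σ) i) :=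
    Matrix.linearIndependent_rows_of_det_ne_zero hne
  have h2 : (fun i => (gmat v σ) i) = (LinearMap.funLeft K K σ) ∘ v := by
    funext i
    rfl
  rw [h2] at h1
  exact LinearIndependent.of_comp _ h1

lemma exists_gmat_det_ne_zero {v : Fin (r + 1) → Fin (r + 4) → K} (hv : LinearIndependent K v) :
    ∃ σ, (gmat v σ).det ≠ 0 := by
  classical
  obtain ⟨A, hA⟩ : ∃ A : Matrix (Fin (r + 1)) (Fin (r + 4)) K, A = Matrix.of v := ⟨_, rfl⟩
  have hrow : LinearIndependent K A.row := by rw [hA]; exact hv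
  have hrank : A.rank = r + 1 := by
    rw [hrow.rank_matrix, Fintype.card_fin]
  obtain ⟨t, ht1, ht2, _, ht4⟩ :=
    Submodule.exists_finset_span_eq_linearIndepOn K (Set.range A.col)
  rw [← Matrix.rank_eq_finrank_span_cols, hrank] at ht2
  have e : Fin (r + 1) ≃ t := (Finset.equivFinOfCardEq ht2).symm
  have h1 : ∀ b : Fin (r + 1), ∃ j, A.col j = (e b : Fin (r + 1) → K) := fun b => ht1 (e b).2
  choose σ hσ using h1
  refine ⟨σ, ?_⟩
  have h2 : LinearIndependent K (gmat v σ).col := by
    have h3 : (gmat v σ).col = (fun x : t => (x : Fin (r + 1) → K)) ∘ e := by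
      funext b
      rw [Function.comp_apply, ← hσ b, hA]
      rfl
    rw [h3]
    exact LinearIndependent.comp ht4 e e.injective
  rw [Matrix.linearIndependent_cols_iff_isUnit, Matrix.isUnit_iff_isUnit_det] at h2
  exact h2.ne_zero

end Indep

section Sing

variable {R : Type} [CommRing R] {r c k s : ℕ} (h : Fin c → MvPolynomial (Fin (r + 4)) R)
    (g : Fin k → MvPolynomial (Fin (r + 4)) R) {K : Type} [Field K] (κ : R →+* K)

/-- A common zero of the equations is not a point of smoothness. -/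
lemma eq_zero_of_GG {a : Fin k × Mono (r + 4) s → R}
    (hS : SmoothSection κ h (form g a)) {x : Fin (r + 4) → K}
    (hx : ∀ γ, eval₂ κ x (GG (RingHom.id R) h g a γ) = 0) : x = 0 := by
  by_contra hne
  obtain ⟨ρ, hρ⟩ := hS x hne
    (fun i => by
      have := hx (Sum.inl (Sum.inl i))
      simp only [GG, map_id] at this
      exact this)
    (by
      have := hx (Sum.inl (Sum.inr ()))
      simp only [GG, formS_id] at this
      exact this)
  obtain ⟨σ, hσ⟩ := exists_gmat_det_ne_zero hρ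
  apply hσ
  rw [← eval_GG_minor]
  exact hx _

/-- A section which is not smooth has a nonzero common zero of the equations. -/
lemma exists_of_not_smooth {a : Fin k × Mono (r + 4) s → R}
    (hS : ¬ SmoothSection κ h (form g a)) :
    ∃ x : Fin (r + 4) → K, x ≠ 0 ∧ ∀ γ, eval₂ κ x (GG (RingHom.id R) h g a γ) = 0 := by
  unfold SmoothSection at hS
  push Not at hS
  obtain ⟨x, hx, h1, h2, h3⟩ := hS
  refine ⟨x, hx, ?_⟩
  rintro ((i | i) | ⟨ρ, σ⟩)
  · simp only [GG, map_id]
    exact h1 i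
  · simp only [GG, formS_id]
    exact h2
  · rw [eval_GG_minor]
    exact det_gmat_eq_zero (h3 ρ) σ

end Sing

end Pool.Agent.Helper29.LN
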