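import Pool.Agent.Helper29.LN.Mac

set_option autoImplicit false

namespace Pool.Agent.Helper29.LN

open Finset MvPolynomial
open Pool.Agent.Helper29.TT (lf ci)

section Congr

variable {R : Type} [CommRing R] {r c k s : ℕ} (h : Fin c → MvPolynomial (Fin (r + 4)) R)
    (g : Fin k → MvPolynomial (Fin (r + 4)) R)

lemma eval₂_eq_of_map {n : ℕ} {K : Type} [Field K] {κ : R →+* K} {F F' : MvPolynomial (Fin n) R}
    (hF : map κ F = map κ F') (x : Fin n → K) : eval₂ κ x F = eval₂ κ x F' := by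
  rw [← eval_map, ← eval_map, hF]

lemma grad_eq_of_map {n : ℕ} {K : Type} [Field K] {κ : R →+* K} {F F' : MvPolynomial (Fin n) R}
    (hF : map κ F = map κ F') (x : Fin n → K) : grad κ F x = grad κ F' x := by
  funext i
  unfold grad
  apply eval₂_eq_of_map
  rw [← pderiv_map, ← pderiv_map, hF]

variable {p : ℕ} [Fact p.Prime] (φ : R →+* ZMod p)

/-- Lift of a coefficient vector. -/
def lift (R : Type) [CommRing R] {J : Type} (u : J → ZMod p) : J → R := fun j => ((u j).val : R)

lemma map_lift {J : Type} (u : J → ZMod p) (j : J) : φ (lift R u j) = u j := by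
  unfold lift
  rw [map_natCast, ZMod.natCast_val, ZMod.cast_id]

lemma smooth_congr {K : Type} [Field K] (ι : ZMod p →+* K) {a b : Fin k × Mono (r + 4) s → R}
    (hab : ∀ j, φ (a j) = φ (b j))
    (ha : SmoothSection (ι.comp φ) h (form g a)) : SmoothSection (ι.comp φ) h (form g b) := by
  have h1 : map (ι.comp φ) (form g a) = map (ι.comp φ) (form g b) := by
    rw [map_form, map_form]
    congr 1
    funext j
    rw [RingHom.comp_apply, RingHom.comp_apply, hab j]
  intro x hx h2 h3
  rw [← eval₂_eq_of_map h1 x] at h3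
  obtain ⟨ρ, hρ⟩ := ha x hx h2 h3
  rw [grad_eq_of_map h1 x] at hρ
  exact ⟨ρ, hρ⟩

lemma good_lift (a : Fin k × Mono (r + 4) s → R) :
    Good φ h (form g (lift R fun j => φ (a j))) ↔ Good φ h (form g a) := by
  have h1 : ∀ j, φ (lift R (fun j => φ (a j)) j) = φ (a j) := fun j => map_lift φ _ j
  constructor
  · intro hg K _ ι
    exact smooth_congr h g φ ι h1 (hg K ι)
  · intro hg K _ ι
    exact smooth_congr h g φ ι (fun j => (h1 j).symm) (hg K ι)

lemma bad_det {D : ℕ} (q : Mono (r + 4) D → GIdx r c → MvPolynomial (Fin (r + 4)) R)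
    {δ : Fin c → ℕ} (hh : ∀ i, (h i).IsHomogeneous (δ i)) {e : ℕ}
    (hg : ∀ i, (g i).IsHomogeneous e) {u : Fin k × Mono (r + 4) s → ZMod p}
    (hu : ¬ Good φ h (form g (lift R u))) : (mac h g q φ u).det = 0 := by
  unfold Good at hu
  push Not at hu
  obtain ⟨K, _, ι, h2⟩ := hu
  obtain ⟨x, hx, h3⟩ := exists_of_not_smooth h g (ι.comp φ) h2
  apply det_mac_eq_zero h g q φ hh hg ι u hx
  intro γ
  have h4 : (fun j => φ (lift R u j)) = u := funext fun j => map_lift φ u j
  have h5 : GG φ h g u γ = map φ (GG (RingHom.id R) h g (lift R u) γ) := by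
    rw [map_GG, h4]
  rw [h5, eval₂_map]
  exact h3 γ

/-- The proportion of the sections with bad reduction. -/
lemma card_bad {D : ℕ} {q : Mono (r + 4) D → GIdx r c → MvPolynomial (Fin (r + 4)) R}
    {δ : Fin c → ℕ} (hh : ∀ i, (h i).IsHomogeneous (δ i)) {e : ℕ}
    (hg : ∀ i, (g i).IsHomogeneous e) {a₀ : Fin k × Mono (r + 4) s → R} {N : ℤ} (hN : N ≠ 0)
    (hq : ∀ m : Mono (r + 4) D, ∑ γ, q m γ * GG (RingHom.id R) h g a₀ γ =
        monomial (m : Fin (r + 4) →₀ ℕ) (N : R))
    [DecidablePred fun u : Fin k × Mono (r + 4) s → ZMod p => ¬ Good φ h (form g (lift R u))] :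
    (((univ : Finset (Fin k × Mono (r + 4) s → ZMod p)).filter
      fun u => ¬ Good φ h (form g (lift R u))).card : ℝ) ≤
      (2 * Fintype.card (Mono (r + 4) D) + N.natAbs) *
        ((p : ℝ) ^ Fintype.card (Fin k × Mono (r + 4) s) / p) := by
  classical
  have hp2 : (2 : ℝ) ≤ p := by exact_mod_cast (Fact.out : p.Prime).two_le
  have hp : (0 : ℝ) < p := by linarith
  obtain ⟨n, hn⟩ : ∃ n, n = Fintype.card (Fin k × Mono (r + 4) s) := ⟨_, rfl⟩
  have hc : (Fintype.card (Fin k × Mono (r + 4) s → ZMod p) : ℝ) = (p : ℝ) ^ n := by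
    rw [Fintype.card_fun, ZMod.card, ← hn]; push_cast; ring
  rw [← hn]
  have h0 : (0 : ℝ) < (p : ℝ) ^ n := by positivity
  obtain ⟨b, hb⟩ : ∃ b : ℝ, b = (((univ : Finset (Fin k × Mono (r + 4) s → ZMod p)).filter
      fun u => ¬ Good φ h (form g (lift R u))).card : ℝ) := ⟨_, rfl⟩
  rw [← hb, ← mul_div_assoc, le_div_iff₀ hp]
  obtain ⟨m, hm⟩ : ∃ m : ℝ, m = (Fintype.card (Mono (r + 4) D) : ℝ) := ⟨_, rfl⟩
  have hm0 : 0 ≤ m := by rw [hm]; exact Nat.cast_nonneg _
  rw [← hm]
  have hNa : (0 : ℝ) ≤ (N.natAbs : ℝ) := Nat.cast_nonneg _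
  by_cases hdp : (N : ZMod p) = 0
  · rw [ZMod.intCast_zmod_eq_zero_iff_dvd] at hdp
    have h1 : p ∣ N.natAbs := Int.natCast_dvd.1 hdp
    have hle : p ≤ N.natAbs := Nat.le_of_dvd (Int.natAbs_pos.2 hN) h1
    have hle' : (p : ℝ) ≤ N.natAbs := by exact_mod_cast hle
    have h1 : b ≤ (p : ℝ) ^ n := by
      rw [hb, ← hc]
      exact_mod_cast (Finset.card_filter_le _ _).trans (by rw [Finset.card_univ])
    calc b * p ≤ (p : ℝ) ^ n * p := mul_le_mul_of_nonneg_right h1 hp.le
      _ ≤ (p : ℝ) ^ n * N.natAbs := mul_le_mul_of_nonneg_left hle' h0.le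
      _ ≤ _ := by nlinarith
  · have h1 := card_sing h g q φ hdp hq
    rw [ZMod.card] at h1
    have h2 : ((univ : Finset (Fin k × Mono (r + 4) s → ZMod p)).filter
        fun u => ¬ Good φ h (form g (lift R u))).card ≤
        ((univ : Finset (Fin k × Mono (r + 4) s → ZMod p)).filter
          fun u => (mac h g q φ u).det = 0).card := by
      apply Finset.card_le_card
      intro u hu
      rw [Finset.mem_filter] at hu ⊢
      exact ⟨hu.1, bad_det h g φ q hh hg hu.2⟩
    have h3 : b * ((p - 1 : ℕ) : ℝ) ≤ m * (p : ℝ) ^ n := by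
      rw [hb, ← hc, hm]
      exact_mod_cast (Nat.mul_le_mul_right (p - 1) h2).trans h1
    have hp1 : ((p - 1 : ℕ) : ℝ) = (p : ℝ) - 1 := by
      rw [Nat.cast_sub (Fact.out : p.Prime).one_le, Nat.cast_one]
    rw [hp1] at h3
    have hb0 : 0 ≤ b := by rw [hb]; exact Nat.cast_nonneg _
    have h4 : b * p ≤ 2 * (b * ((p : ℝ) - 1)) := by nlinarith
    nlinarith

end Congr

section Points

variable {R : Type} [CommRing R] {r c k s : ℕ} (h : Fin c → MvPolynomial (Fin (r + 4)) R)
    (g : Fin k → MvPolynomial (Fin (r + 4)) R) {p : ℕ} [Fact p.Prime] (φ : R →+* ZMod p)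

open Classical in
/-- The nonzero solutions of the equations of `W`. -/
noncomputable def XW : Finset (Fin (r + 4) → ZMod p) :=
  univ.filter fun x => x ≠ 0 ∧ ∀ i, eval₂ φ x (h i) = 0

open Classical in
/-- The nonzero solutions on the base locus. -/
noncomputable def XZ : Finset (Fin (r + 4) → ZMod p) :=
  (XW h φ).filter fun x => ∀ i, eval₂ φ x (g i) = 0

open Classical in
/-- The other nonzero solutions. -/
noncomputable def XU : Finset (Fin (r + 4) → ZMod p) :=
  (XW h φ).filter fun x => ¬ ∀ i, eval₂ φ x (g i) = 0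

/-- The vector of the values of the generators. -/
noncomputable def gv (x : Fin (r + 4) → ZMod p) : Fin k → ZMod p := fun i => eval₂ φ x (g i)

lemma points_W : points φ (Set.range h) = ((XW h φ).card : ℝ) / ((p : ℝ) - 1) := by
  classical
  unfold points XW
  rw [Nat.card_eq_fintype_card, Fintype.card_subtype]
  congr 3
  ext x
  simp only [Finset.mem_filter, Set.forall_mem_range]

lemma points_Z : points φ (Set.range h ∪ Set.range g) =
    ((XZ h g φ).card : ℝ) / ((p : ℝ) - 1) := by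
  classical
  unfold points XZ XW
  rw [Nat.card_eq_fintype_card, Fintype.card_subtype, Finset.filter_filter]
  congr 3
  ext x
  simp only [Finset.mem_filter, Finset.mem_univ, true_and]
  constructor
  · rintro ⟨h1, h2⟩
    exact ⟨⟨h1, fun i => h2 _ (Or.inl ⟨i, rfl⟩)⟩, fun i => h2 _ (Or.inr ⟨i, rfl⟩)⟩
  · rintro ⟨⟨h1, h2⟩, h3⟩
    refine ⟨h1, ?_⟩
    rintro F (⟨i, rfl⟩ | ⟨i, rfl⟩)
    · exact h2 i
    · exact h3 i

lemma card_XW : ((XW h φ).card : ℝ) = (XZ h g φ).card + (XU h g φ).card := by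
  classical
  unfold XZ XU
  have := Finset.card_filter_add_card_filter_not (s := XW h φ)
    (fun x : Fin (r + 4) → ZMod p => ∀ i, eval₂ φ x (g i) = 0)
  exact_mod_cast this.symm

lemma XU_prop : ∀ x ∈ XU h g φ, x ≠ 0 ∧ gv g φ x ≠ 0 := by
  intro x hx
  unfold XU XW at hx
  rw [Finset.mem_filter, Finset.mem_filter] at hx
  refine ⟨hx.1.2.1, ?_⟩
  intro h0
  apply hx.2
  intro i
  exact congrFun h0 i

lemma eval₂_form (a : Fin k × Mono (r + 4) s → R) (x : Fin (r + 4) → ZMod p) :
    eval₂ φ x (form g a) = lf (evg (gv g φ x) x) (fun j => φ (a j)) := by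
  unfold form evg gv ver
  rw [← coe_eval₂Hom, map_sum]
  simp only [Pool.Agent.Helper29.TT.lf_apply]
  refine Finset.sum_congr rfl fun j _ => ?_
  rw [map_mul, coe_eval₂Hom, eval₂_monomial, Finsupp.prod_fintype _ _ (fun i => pow_zero _)]
  ring

lemma points_V (a : Fin k × Mono (r + 4) s → R) :
    points φ (insert (form g a) (Set.range h)) =
      ((XZ h g φ).card + (DD (XU h g φ) (gv g φ) (fun j => φ (a j)) +
        (XU h g φ).card / (p : ℝ))) / ((p : ℝ) - 1) := by
  classical
  obtain ⟨u, hu⟩ : ∃ u : Fin k × Mono (r + 4) s → ZMod p, u = fun j => φ (a j) := ⟨_, rfl⟩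
  have hform : ∀ x : Fin (r + 4) → ZMod p,
      eval₂ φ x (form g a) = lf (evg (gv g φ x) x) u := by
    intro x; rw [hu]; exact eval₂_form g φ a x
  rw [← hu]
  have h1 : Nat.card {x : Fin (r + 4) → ZMod p //
      x ≠ 0 ∧ ∀ F ∈ insert (form g a) (Set.range h), eval₂ φ x F = 0} =
      ((XW h φ).filter fun x => lf (evg (gv g φ x) x) u = 0).card := by
    rw [Nat.card_eq_fintype_card, Fintype.card_subtype]
    congr 1
    ext x
    unfold XW
    simp only [Finset.mem_filter, Finset.mem_univ, true_and, Set.mem_insert_iff,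
      forall_eq_or_imp, Set.forall_mem_range, hform]
    tauto
  have h2 : ((XW h φ).filter fun x => lf (evg (gv g φ x) x) u = 0).card =
      (XZ h g φ).card + ((XU h g φ).filter fun x => lf (evg (gv g φ x) x) u = 0).card := by
    rw [← Finset.card_filter_add_card_filter_not (s := (XW h φ).filter
      fun x => lf (evg (gv g φ x) x) u = 0)
      (fun x : Fin (r + 4) → ZMod p => ∀ i, eval₂ φ x (g i) = 0)]
    congr 1
    · congr 1
      ext x
      unfold XZ
      simp only [Finset.mem_filter]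
      constructor
      · rintro ⟨⟨h1, _⟩, h3⟩; exact ⟨h1, h3⟩
      · rintro ⟨h1, h3⟩
        refine ⟨⟨h1, ?_⟩, h3⟩
        have : gv g φ x = 0 := funext fun i => h3 i
        rw [this]
        simp [evg]
    · congr 1
      ext x
      unfold XU
      simp only [Finset.mem_filter]
      tauto
  have h3 : DD (XU h g φ) (gv g φ) u =
      (((XU h g φ).filter fun x => lf (evg (gv g φ x) x) u = 0).card : ℝ) -
        (XU h g φ).card / (p : ℝ) := by
    unfold DD ci
    rw [Finset.sum_sub_distrib, Finset.sum_const, nsmul_eq_mul, ZMod.card, Finset.card_filter]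
    push_cast
    ring
  unfold points
  rw [h1, h2, h3]
  push_cast
  ring

/-- The normalised trace minus its expected value. -/
noncomputable def gg (u : Fin k × Mono (r + 4) s → ZMod p) : ℝ :=
  DD (XU h g φ) (gv g φ) u / (p * (p - 1)) -
    points φ (Set.range h ∪ Set.range g) / (p : ℝ) ^ 2

lemma trace_eq (a : Fin k × Mono (r + 4) s → R) :
    trace φ h (form g a) / p - expect φ h g = gg h g φ fun j => φ (a j) := by
  have hp2 : (2 : ℝ) ≤ p := by exact_mod_cast (Fact.out : p.Prime).two_le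
  have hp : (p : ℝ) ≠ 0 := by linarith
  have hp1 : (p : ℝ) - 1 ≠ 0 := by linarith
  unfold trace expect gg
  rw [points_V, points_W, points_Z, card_XW h g φ]
  field_simp
  ring

end Points

end Pool.Agent.Helper29.LN
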