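import Pool.Agent.Helper29.LN.Defs
import Pool.Agent.Helper29.TT.Mom

set_option autoImplicit false

namespace Pool.Agent.Helper29.LN

open Finset
open Pool.Agent.Helper29.TT (lf ci sum_ci sum_ci_mul sum_ci_mul_le)

section Veronese

variable {K : Type} [Field K] {n s k : ℕ}

/-- The vector of the values of the monomials of degree `s` at `x`. -/
def ver (s : ℕ) (x : Fin n → K) : Mono n s → K := fun m => ∏ i, x i ^ ((m : Fin n →₀ ℕ) i)

lemma prod_single (x : Fin n → K) (k : Fin n) (s : ℕ) :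
    ∏ i, x i ^ ((Finsupp.single k s : Fin n →₀ ℕ) i) = x k ^ s := by
  rw [Finset.prod_eq_single k]
  · simp
  · intro i _ hi
    rw [Finsupp.single_apply, if_neg (Ne.symm hi), pow_zero]
  · simp

lemma mono_mem (hs : 1 ≤ s) (j k : Fin n) :
    (Finsupp.single j 1 + Finsupp.single k (s - 1) : Fin n →₀ ℕ) ∈ Mono n s := by
  rw [Finset.mem_finsuppAntidiag]
  refine ⟨?_, Finset.subset_univ _⟩
  simp only [Finsupp.coe_add, Pi.add_apply, Finset.sum_add_distrib, Finsupp.single_apply,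
    Finset.sum_ite_eq, Finset.mem_univ, if_true]
  omega

lemma ver_apply (hs : 1 ≤ s) (x : Fin n → K) (j k : Fin n) :
    ver s x ⟨_, mono_mem hs j k⟩ = x j * x k ^ (s - 1) := by
  unfold ver
  simp only [Finsupp.coe_add, Pi.add_apply, pow_add, Finset.prod_mul_distrib, prod_single, pow_one]

lemma ver_ne_zero (hs : 1 ≤ s) {x : Fin n → K} (hx : x ≠ 0) : ver s x ≠ 0 := by
  obtain ⟨k, hk⟩ := Function.ne_iff.1 hx
  intro h
  have h1 := congrFun h ⟨_, mono_mem hs k k⟩
  rw [ver_apply hs] at h1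
  have hk' : x k ≠ 0 := hk
  exact mul_ne_zero hk' (pow_ne_zero _ hk') h1

lemma ver_indep_aux (hs : 1 ≤ s) {x y : Fin n → K} (hy : y ≠ 0) {i j : Fin n}
    (hij : x i * y j - x j * y i ≠ 0) {α β : K}
    (h : ∀ m, α * ver s x m + β * ver s y m = 0) : β = 0 := by
  obtain ⟨k, hk⟩ := Function.ne_iff.1 hy
  have hk' : y k ≠ 0 := hk
  have h1 := h ⟨_, mono_mem hs j k⟩
  have h2 := h ⟨_, mono_mem hs i k⟩
  rw [ver_apply hs, ver_apply hs] at h1 h2
  have h3 : β * (y k ^ (s - 1) * (x i * y j - x j * y i)) = 0 := by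
    linear_combination x i * h1 - x j * h2
  rcases mul_eq_zero.1 h3 with h4 | h4
  · exact h4
  · exact absurd h4 (mul_ne_zero (pow_ne_zero _ hk') hij)

lemma ver_indep (hs : 1 ≤ s) {x y : Fin n → K} (hx : x ≠ 0) (hy : y ≠ 0)
    (hxy : ∀ c : K, y ≠ c • x) (α β : K)
    (h : ∀ m, α * ver s x m + β * ver s y m = 0) : α = 0 ∧ β = 0 := by
  obtain ⟨i, hi⟩ := Function.ne_iff.1 hx
  have hi' : x i ≠ 0 := hi
  have : ∃ j, x i * y j - x j * y i ≠ 0 := by
    by_contra hcon
    push Not at hcon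
    apply hxy (y i / x i)
    funext j
    have := hcon j
    simp only [Pi.smul_apply, smul_eq_mul]
    field_simp
    linear_combination this
  obtain ⟨j, hj⟩ := this
  have hj2 : y i * x j - y j * x i ≠ 0 := by
    intro h0
    apply hj
    linear_combination -h0
  exact ⟨ver_indep_aux hs hx hj2 (fun m => by rw [add_comm]; exact h m),
    ver_indep_aux hs hy hj h⟩

/-- The evaluation vector of the linear system at a point `x`, where `γ` is the vector of the
values of the generators. -/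
def evg (γ : Fin k → K) (x : Fin n → K) : Fin k × Mono n s → K := fun j => γ j.1 * ver s x j.2

lemma evg_ne_zero (hs : 1 ≤ s) {γ : Fin k → K} (hγ : γ ≠ 0) {x : Fin n → K} (hx : x ≠ 0) :
    (evg γ x : Fin k × Mono n s → K) ≠ 0 := by
  obtain ⟨i, hi⟩ := Function.ne_iff.1 hγ
  obtain ⟨m, hm⟩ := Function.ne_iff.1 (ver_ne_zero hs hx)
  intro h
  exact mul_ne_zero hi hm (congrFun h (i, m))

lemma evg_indep (hs : 1 ≤ s) {γ γ' : Fin k → K} (hγ : γ ≠ 0) (hγ' : γ' ≠ 0)
    {x y : Fin n → K} (hx : x ≠ 0) (hy : y ≠ 0) (hxy : ∀ c : K, y ≠ c • x) (α β : K)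
    (h : ∀ j : Fin k × Mono n s, α * evg γ x j + β * evg γ' y j = 0) : α = 0 ∧ β = 0 := by
  have h1 : ∀ i, α * γ i = 0 ∧ β * γ' i = 0 := by
    intro i
    apply ver_indep hs hx hy hxy
    intro m
    have := h (i, m)
    unfold evg at this
    rw [mul_assoc, mul_assoc]
    exact this
  obtain ⟨i, hi⟩ := Function.ne_iff.1 hγ
  obtain ⟨i', hi'⟩ := Function.ne_iff.1 hγ'
  exact ⟨(mul_eq_zero.1 (h1 i).1).resolve_right hi, (mul_eq_zero.1 (h1 i').2).resolve_right hi'⟩

end Veronese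

section Moment

variable {p : ℕ} [Fact p.Prime] {n s k : ℕ}

/-- The sum of the centred indicators over a set `U` of points. -/
noncomputable def DD (U : Finset (Fin n → ZMod p)) (γ : (Fin n → ZMod p) → Fin k → ZMod p)
    (u : Fin k × Mono n s → ZMod p) : ℝ :=
  ∑ x ∈ U, ci (evg (γ x) x) u

variable {U : Finset (Fin n → ZMod p)} {γ : (Fin n → ZMod p) → Fin k → ZMod p}

lemma sum_DD (hs : 1 ≤ s) (hU : ∀ x ∈ U, x ≠ 0 ∧ γ x ≠ 0) :
    ∑ u : Fin k × Mono n s → ZMod p, DD U γ u = 0 := by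
  classical
  unfold DD
  rw [Finset.sum_comm]
  apply Finset.sum_eq_zero
  intro x hx
  exact sum_ci (evg_ne_zero hs (hU x hx).2 (hU x hx).1)

lemma sum_DD_sq (hs : 1 ≤ s) (hU : ∀ x ∈ U, x ≠ 0 ∧ γ x ≠ 0) :
    ∑ u : Fin k × Mono n s → ZMod p, DD U γ u ^ 2 ≤
      2 * U.card * (p : ℝ) ^ Fintype.card (Fin k × Mono n s) := by
  classical
  have hp : (0 : ℝ) < p := by exact_mod_cast (Fact.out : p.Prime).pos
  obtain ⟨Q, hQ⟩ : ∃ Q : ℝ, Q = 2 * ((p : ℝ) ^ Fintype.card (Fin k × Mono n s) / p) := ⟨_, rfl⟩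
  have hQ0 : 0 ≤ Q := by rw [hQ]; positivity
  have h1 : ∑ u : Fin k × Mono n s → ZMod p, DD U γ u ^ 2 =
      ∑ x ∈ U, ∑ y ∈ U, ∑ u : Fin k × Mono n s → ZMod p,
        ci (evg (γ x) x) u * ci (evg (γ y) y) u := by
    unfold DD
    simp_rw [sq, Finset.sum_mul_sum]
    rw [Finset.sum_comm]
    refine Finset.sum_congr rfl fun x _ => ?_
    rw [Finset.sum_comm]
  rw [h1]
  have h2 : ∀ x ∈ U, ∑ y ∈ U, ∑ u : Fin k × Mono n s → ZMod p,
        ci (evg (γ x) x) u * ci (evg (γ y) y) u ≤ p * Q := by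
    intro x hx
    have h3 : ∀ y ∈ U, ∑ u : Fin k × Mono n s → ZMod p,
        ci (evg (γ x) x) u * ci (evg (γ y) y) u ≤
          if ∃ c : ZMod p, y = c • x then Q else 0 := by
      intro y hy
      split_ifs with h
      · have := sum_ci_mul_le (w1 := (evg (γ x) x : Fin k × Mono n s → ZMod p))
          (w2 := evg (γ y) y) (evg_ne_zero hs (hU x hx).2 (hU x hx).1)
        rw [ZMod.card] at this
        rw [hQ]
        exact this
      · push Not at h
        exact (sum_ci_mul (evg_ne_zero hs (hU x hx).2 (hU x hx).1)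
          (evg_ne_zero hs (hU y hy).2 (hU y hy).1)
          (evg_indep hs (hU x hx).2 (hU y hy).2 (hU x hx).1 (hU y hy).1 h)).le
    refine (Finset.sum_le_sum h3).trans ?_
    rw [← Finset.sum_filter, Finset.sum_const, nsmul_eq_mul]
    apply mul_le_mul_of_nonneg_right _ hQ0
    have h4 : (U.filter fun y => ∃ c : ZMod p, y = c • x) ⊆
        (univ : Finset (ZMod p)).image fun c => c • x := by
      intro y hy
      obtain ⟨c, hc⟩ := (Finset.mem_filter.1 hy).2
      exact Finset.mem_image.2 ⟨c, Finset.mem_univ _, hc.symm⟩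
    have h5 := (Finset.card_le_card h4).trans Finset.card_image_le
    rw [Finset.card_univ, ZMod.card] at h5
    exact_mod_cast h5
  refine (Finset.sum_le_sum h2).trans ?_
  rw [Finset.sum_const, nsmul_eq_mul, hQ]
  apply le_of_eq
  field_simp

end Moment

end Pool.Agent.Helper29.LN
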