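import Pool.Agent.Helper29.LN.Cert
import Pool.Agent.Helper29.LN.Ver

set_option autoImplicit false

namespace Pool.Agent.Helper29.LN

open Finset MvPolynomial

section Hom

variable {n : ℕ} {R K : Type} [CommRing R] [CommRing K] [Algebra R K]

lemma aeval_homComp (D : ℕ) (P : MvPolynomial (Fin n) R) (z : Fin n → K) :
    aeval z (homogeneousComponent D P) = ∑ m : Mono n D, algebraMap R K
      (coeff (m : Fin n →₀ ℕ) P) * ∏ i, z i ^ (m : Fin n →₀ ℕ) i := by
  have hP := homogeneousComponent_isHomogeneous D P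
  have h1 : aeval z (homogeneousComponent D P) =
      ∑ m ∈ Mono n D, algebraMap R K (coeff m (homogeneousComponent D P)) * ∏ i, z i ^ m i := by
    rw [aeval_def, eval₂_eq']
    apply Finset.sum_subset
    · intro m hm
      rw [Finset.mem_finsuppAntidiag]
      refine ⟨?_, Finset.subset_univ _⟩
      have := hP (mem_support_iff.1 hm)
      rw [Finsupp.weight_apply] at this
      rw [← this]
      rw [Finsupp.sum_fintype]
      · simp
      · intro i; simp
    · intro m _ hm
      rw [notMem_support_iff.1 hm, map_zero, zero_mul]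
  rw [h1, ← Finset.sum_coe_sort]
  refine Finset.sum_congr rfl fun m _ => ?_
  have h2 : coeff (m : Fin n →₀ ℕ) (homogeneousComponent D P) = coeff (m : Fin n →₀ ℕ) P := by
    rw [coeff_homogeneousComponent, if_pos]
    have h := (Finset.mem_finsuppAntidiag.1 m.2).1
    rw [Finsupp.degree_eq_sum]
    exact h
  rw [h2]

attribute [local instance] MvPolynomial.gradedAlgebra in
/-- The homogeneous components of an element of an ideal generated by forms vanish at the common
zeros of the forms. -/
lemma homComp_zero {Γ : Type} (G : Γ → MvPolynomial (Fin n) R)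
    (hG : ∀ γ, ∃ N, (G γ).IsHomogeneous N) (z : Fin n → K) (hz : ∀ γ, aeval z (G γ) = 0)
    {P : MvPolynomial (Fin n) R} (hP : P ∈ Ideal.span (Set.range G)) (D : ℕ) :
    aeval z (homogeneousComponent D P) = 0 := by
  have h1 : (Ideal.span (Set.range G)).IsHomogeneous (homogeneousSubmodule (Fin n) R) := by
    apply Ideal.homogeneous_span
    rintro _ ⟨γ, rfl⟩
    obtain ⟨N, hN⟩ := hG γ
    exact ⟨N, (mem_homogeneousSubmodule N _).2 hN⟩
  have h2 := homogeneousComponent_mem_of_mem h1 hP D
  have h3 : Ideal.span (Set.range G) ≤ RingHom.ker (aeval z : MvPolynomial (Fin n) R →ₐ[R] K) := by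
    rw [Ideal.span_le]
    rintro _ ⟨γ, rfl⟩
    exact hz γ
  exact h3 h2

end Hom

section Mac

variable {R : Type} [CommRing R] {r c k s D : ℕ} (h : Fin c → MvPolynomial (Fin (r + 4)) R)
    (g : Fin k → MvPolynomial (Fin (r + 4)) R)
    (q : Mono (r + 4) D → GIdx r c → MvPolynomial (Fin (r + 4)) R)
    {kk : Type} [Field kk] (φ : R →+* kk)

/-- The polynomials of the certificate. -/
noncomputable def PP (u : Fin k × Mono (r + 4) s → kk)
    (m : Mono (r + 4) D) : MvPolynomial (Fin (r + 4)) kk :=
  ∑ γ, map φ (q m γ) * GG φ h g u γ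

/-- The linear parts of the polynomials of the certificate. -/
noncomputable def PL (u : Fin k × Mono (r + 4) s → kk)
    (m : Mono (r + 4) D) : MvPolynomial (Fin (r + 4)) kk :=
  ∑ γ, map φ (q m γ) * LL φ h g u γ

/-- The square matrix of the certificate. -/
noncomputable def mac (u : Fin k × Mono (r + 4) s → kk) :
    Matrix (Mono (r + 4) D) (Mono (r + 4) D) kk :=
  fun m' m => coeff (m' : Fin (r + 4) →₀ ℕ) (PP h g q φ u m)

/-- The linear part of the matrix. -/
noncomputable def macL (u : Fin k × Mono (r + 4) s → kk) :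
    Matrix (Mono (r + 4) D) (Mono (r + 4) D) kk :=
  fun m' m => coeff (m' : Fin (r + 4) →₀ ℕ) (PL h g q φ u m)

lemma mac_affine (u v : Fin k × Mono (r + 4) s → kk) (t : kk) :
    mac h g q φ (u + t • v) = mac h g q φ u + t • macL h g q φ v := by
  ext m' m
  simp only [mac, macL, PP, PL, Matrix.add_apply, Matrix.smul_apply]
  rw [← coeff_smul, ← coeff_add, Finset.smul_sum, ← Finset.sum_add_distrib]
  congr 1
  refine Finset.sum_congr rfl fun γ _ => ?_
  rw [GG_affine, mul_add, mul_smul_comm]

lemma mac_cert {a₀ : Fin k × Mono (r + 4) s → R} {N : ℤ}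
    (hq : ∀ m : Mono (r + 4) D, ∑ γ, q m γ * GG (RingHom.id R) h g a₀ γ =
        monomial (m : Fin (r + 4) →₀ ℕ) (N : R)) :
    mac h g q φ (fun j => φ (a₀ j)) = (N : kk) • (1 : Matrix _ _ kk) := by
  ext m' m
  simp only [mac, PP, Matrix.smul_apply]
  have h1 : ∑ γ, map φ (q m γ) * GG φ h g (fun j => φ (a₀ j)) γ =
      monomial (m : Fin (r + 4) →₀ ℕ) (N : kk) := by
    have h2 := congrArg (map φ) (hq m)
    rw [map_sum, map_monomial] at h2
    rw [← map_intCast φ N, ← h2]
    refine Finset.sum_congr rfl fun γ _ => ?_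
    rw [map_mul, map_GG]
  rw [h1, coeff_monomial, Matrix.one_apply]
  by_cases hm : m' = m
  · subst hm; simp
  · have h' : (m : Fin (r + 4) →₀ ℕ) ≠ m' := fun h0 => hm (Subtype.ext h0.symm)
    rw [if_neg h', if_neg hm]; simp

/-- The matrix of a section with a singular point is singular. -/
lemma det_mac_eq_zero {δ : Fin c → ℕ} (hh : ∀ i, (h i).IsHomogeneous (δ i)) {e : ℕ}
    (hg : ∀ i, (g i).IsHomogeneous e) {K : Type} [Field K] (ι : kk →+* K)
    (u : Fin k × Mono (r + 4) s → kk) {z : Fin (r + 4) → K}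
    (hz : z ≠ 0) (hz2 : ∀ γ, eval₂ ι z (GG φ h g u γ) = 0) : (mac h g q φ u).det = 0 := by
  let _ : Algebra kk K := ι.toAlgebra
  have hinj : Function.Injective (algebraMap kk K) := (algebraMap kk K).injective
  apply hinj
  rw [map_zero, RingHom.map_det]
  rw [← Matrix.exists_vecMul_eq_zero_iff]
  obtain ⟨j, hj⟩ := Function.ne_iff.1 hz
  refine ⟨fun m => ∏ i, z i ^ (m : Fin (r + 4) →₀ ℕ) i, ?_, ?_⟩
  · intro h0
    have hmem : (Finsupp.single j D : Fin (r + 4) →₀ ℕ) ∈ Mono (r + 4) D := by
      rw [Finset.mem_finsuppAntidiag]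
      refine ⟨?_, Finset.subset_univ _⟩
      simp [Finsupp.single_apply]
    have h1 := congrFun h0 ⟨Finsupp.single j D, hmem⟩
    simp only [prod_single, Pi.zero_apply] at h1
    exact pow_ne_zero _ hj h1
  · funext m'
    have hmem : PP h g q φ u m' ∈ Ideal.span (Set.range (GG φ h g u)) := by
      unfold PP
      exact Ideal.sum_mem _ fun γ _ => Ideal.mul_mem_left _ _ (Ideal.subset_span ⟨γ, rfl⟩)
    have h1 := homComp_zero (GG φ h g u) (fun γ => GG_hom φ h g hh hg u γ) z hz2 hmem D
    rw [aeval_homComp] at h1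
    simp only [Matrix.vecMul, dotProduct, Pi.zero_apply, RingHom.mapMatrix_apply, Matrix.map_apply]
    rw [← h1]
    refine Finset.sum_congr rfl fun m _ => ?_
    rw [mul_comm]
    rfl

lemma card_det {ι : Type} [Fintype ι] [DecidableEq ι] (A : Matrix ι ι kk) {N : kk} (hN : N ≠ 0)
    [Fintype kk] [DecidableEq kk] :
    ((univ : Finset kk).filter fun t => (N • (1 : Matrix ι ι kk) + t • A).det = 0).card ≤
      Fintype.card ι := by
  classical
  set Q : Polynomial kk := Matrix.det ((Polynomial.X : Polynomial kk) •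
    A.map Polynomial.C + (N • (1 : Matrix ι ι kk)).map Polynomial.C) with hQ
  have hev : ∀ t, Q.eval t = (N • (1 : Matrix ι ι kk) + t • A).det := by
    intro t
    rw [hQ, ← Polynomial.coe_evalRingHom, RingHom.map_det]
    congr 1
    ext i j
    simp only [RingHom.mapMatrix_apply, Matrix.map_apply, Matrix.add_apply, Matrix.smul_apply,
      Polynomial.coe_evalRingHom, Polynomial.eval_add, smul_eq_mul, Polynomial.eval_mul,
      Polynomial.eval_X, Polynomial.eval_C]
    rw [add_comm]
  have hdeg : Q.natDegree ≤ Fintype.card ι := Polynomial.natDegree_det_X_add_C_le _ _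
  have hQ0 : Q ≠ 0 := by
    intro h0
    have h1 := hev 0
    rw [h0, Polynomial.eval_zero, zero_smul, add_zero, Matrix.det_smul, Matrix.det_one,
      mul_one] at h1
    exact pow_ne_zero _ hN h1.symm
  have hsub : ((univ : Finset kk).filter fun t => (N • (1 : Matrix ι ι kk) + t • A).det = 0) ⊆
      Q.roots.toFinset := by
    intro t ht
    rw [Finset.mem_filter] at ht
    rw [Multiset.mem_toFinset, Polynomial.mem_roots hQ0, Polynomial.IsRoot.def, hev]
    exact ht.2
  calc _ ≤ Q.roots.toFinset.card := Finset.card_le_card hsub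
    _ ≤ Multiset.card Q.roots := Multiset.toFinset_card_le _
    _ ≤ Q.natDegree := Polynomial.card_roots' _
    _ ≤ _ := hdeg

/-- The proportion of the vectors with singular matrix. -/
lemma card_sing [Fintype kk] [DecidableEq kk] {a₀ : Fin k × Mono (r + 4) s → R} {N : ℤ}
    (hN : (N : kk) ≠ 0)
    (hq : ∀ m : Mono (r + 4) D, ∑ γ, q m γ * GG (RingHom.id R) h g a₀ γ =
        monomial (m : Fin (r + 4) →₀ ℕ) (N : R)) :
    ((univ : Finset (Fin k × Mono (r + 4) s → kk)).filter
      fun u => (mac h g q φ u).det = 0).card * (Fintype.card kk - 1) ≤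
      Fintype.card (Mono (r + 4) D) * Fintype.card (Fin k × Mono (r + 4) s → kk) := by
  classical
  set u₀ : Fin k × Mono (r + 4) s → kk := fun j => φ (a₀ j) with hu₀
  set S := (univ : Finset (Fin k × Mono (r + 4) s → kk)).filter
    fun u => (mac h g q φ u).det = 0 with hS
  have h1 : ∀ t ∈ (univ : Finset kk).erase 0,
      ((univ : Finset (Fin k × Mono (r + 4) s → kk)).filter
      fun w => (mac h g q φ (u₀ + t • w)).det = 0).card = S.card := by
    intro t ht
    have ht0 : t ≠ 0 := Finset.ne_of_mem_erase ht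
    apply Finset.card_bij (fun w _ => u₀ + t • w)
    · intro w hw; rw [hS, Finset.mem_filter]; exact ⟨Finset.mem_univ _, (Finset.mem_filter.1 hw).2⟩
    · intro u _ v _ h
      exact smul_right_injective _ ht0 (add_left_cancel h)
    · intro v hv
      have hv2 : u₀ + t • (t⁻¹ • (v - u₀)) = v := by
        rw [smul_smul, mul_inv_cancel₀ ht0, one_smul, add_sub_cancel]
      refine ⟨t⁻¹ • (v - u₀), ?_, hv2⟩
      rw [Finset.mem_filter]
      refine ⟨Finset.mem_univ _, ?_⟩
      rw [hv2]
      exact (Finset.mem_filter.1 hv).2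
  have h2 : S.card * (Fintype.card kk - 1) = ∑ t ∈ (univ : Finset kk).erase 0,
      ((univ : Finset (Fin k × Mono (r + 4) s → kk)).filter
      fun w => (mac h g q φ (u₀ + t • w)).det = 0).card := by
    rw [Finset.sum_congr rfl h1, Finset.sum_const, smul_eq_mul,
      Finset.card_erase_of_mem (Finset.mem_univ _), Finset.card_univ, mul_comm]
  rw [h2]
  simp_rw [Finset.card_filter]
  rw [Finset.sum_comm]
  calc _ ≤ ∑ _w : Fin k × Mono (r + 4) s → kk, Fintype.card (Mono (r + 4) D) := by
        refine Finset.sum_le_sum fun w _ => ?_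
        have h3 : ∑ t ∈ (univ : Finset kk).erase 0,
            (if (mac h g q φ (u₀ + t • w)).det = 0 then 1 else 0) ≤
            ∑ t : kk, (if (mac h g q φ (u₀ + t • w)).det = 0 then 1 else 0) :=
          Finset.sum_le_sum_of_subset (Finset.subset_univ _)
        refine h3.trans ?_
        rw [← Finset.card_filter]
        have h4 := card_det (macL h g q φ w) hN
        simp_rw [mac_affine, hu₀, mac_cert h g q φ hq]
        exact h4
    _ = _ := by rw [Finset.sum_const, Finset.card_univ, smul_eq_mul, mul_comm]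

end Mac

end Pool.Agent.Helper29.LN
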